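import Mathlib

/-! # Zero forcing, forts, and cographs given by cotrees (definitions) -/

namespace ZF36

/-- `Blue G S v`: the vertex `v` is eventually blue when exactly the vertices of `S` are blue at
the start and the colour change rule is applied as long as possible. -/
inductive Blue {V : Type} (G : SimpleGraph V) (S : Finset V) : V → Prop
  | init {v : V} : v ∈ S → Blue G S v
  | force {u w : V} : Blue G S u → G.Adj u w → (∀ z, G.Adj u z → z ≠ w → Blue G S z) →
      Blue G S w

/-- `S` is a zero forcing set. -/
def IsZF {V : Type} (G : SimpleGraph V) (S : Finset V) : Prop := ∀ v, Blue G S v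

/-- `S` is an inclusion-minimal zero forcing set. -/
def IsMinimalZF {V : Type} (G : SimpleGraph V) (S : Finset V) : Prop :=
  IsZF G S ∧ ∀ T, T ⊂ S → ¬ IsZF G T

/-- `S` is a zero forcing set of smallest size. -/
def IsMinimumZF {V : Type} (G : SimpleGraph V) (S : Finset V) : Prop :=
  IsZF G S ∧ ∀ T, IsZF G T → S.card ≤ T.card

/-- every minimal zero forcing set is minimum -/
def WellForced {V : Type} (G : SimpleGraph V) : Prop :=
  ∀ S, IsMinimalZF G S → IsMinimumZF G S

/-- no induced path on four vertices (`a`, `b`, `c`, `d` are automatically distinct if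
`a - b - c - d` is a path and none of `ac`, `ad`, `bd` is an edge) -/
def P4Free {V : Type} (G : SimpleGraph V) : Prop :=
  ∀ a b c d, G.Adj a b → G.Adj b c → G.Adj c d → G.Adj a c ∨ G.Adj a d ∨ G.Adj b d

/-- The disjoint union (`b = false`) or the join (`b = true`) of a family of graphs. -/
def SG {ι : Type} {V : ι → Type} (b : Bool) (H : ∀ i, SimpleGraph (V i)) :
    SimpleGraph (Σ i, V i) where
  Adj x y := (b = true ∧ x.1 ≠ y.1) ∨
    ∃ (i : ι) (a a' : V i), x = ⟨i, a⟩ ∧ y = ⟨i, a'⟩ ∧ (H i).Adj a a'
  symm := ⟨by
    intro x y h
    rcases h with ⟨hb, h⟩ | ⟨i, a, a', hx, hy, h⟩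
    · exact Or.inl ⟨hb, fun e => h e.symm⟩
    · exact Or.inr ⟨i, a', a, hy, hx, h.symm⟩⟩
  loopless := ⟨by
    intro x h
    rcases h with ⟨_, h⟩ | ⟨i, a, a', hx, hy, h⟩
    · exact h rfl
    · have e : (⟨i, a⟩ : Σ i, V i) = ⟨i, a'⟩ := hx.symm.trans hy
      have e' : a = a' := by simpa using e
      subst e'
      exact (H i).loopless.irrefl a h⟩

/-- Cotrees: an inner node has at least two children. -/
inductive Cotree : Type
  | leaf : Cotree
  | node (k : ℕ) (c : Fin (k + 2) → Cotree) : Cotree

namespace Cotree

/-- the vertices are the leaves of the tree -/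
def Vt : Cotree → Type
  | leaf => Unit
  | node _ c => Σ i, (c i).Vt

/-- The cograph of a cotree; `b` tells whether the root is a join (`true`) or a disjoint union
(`false`), and the two kinds of nodes alternate along each branch. -/
def graph : Bool → (t : Cotree) → SimpleGraph t.Vt
  | _, leaf => (⊥ : SimpleGraph Unit)
  | b, node _ c => SG b (fun i => graph (!b) (c i))

instance instFT : (t : Cotree) → Fintype t.Vt
  | leaf => (inferInstance : Fintype Unit)
  | node _ c => by
      haveI : ∀ i, Fintype (c i).Vt := fun i => instFT (c i)
      exact (inferInstance : Fintype (Σ i, (c i).Vt))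

/-- is the tree a single leaf? -/
def isLeaf : Cotree → Bool
  | leaf => true
  | node _ _ => false

/-- is the tree a node all of whose children are leaves? -/
def isStar : Cotree → Bool
  | leaf => false
  | node _ c => decide (∀ i, (c i).isLeaf = true)

/-- number of children which are leaves -/
def nl {k : ℕ} (c : Fin (k + 2) → Cotree) : ℕ :=
  (Finset.univ.filter (fun i => (c i).isLeaf = true)).card

/-- `rk true t = |V| - Z` for the connected cograph `graph true t`;
`rk false t` is the parameter `D` of the disconnected cograph `graph false t`. -/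
def rk : Bool → Cotree → ℕ
  | _, leaf => 1
  | true, node _ c => Finset.univ.sup (fun i => rk false (c i))
  | false, node _ c =>
      (∑ i, if (c i).isLeaf = true then 0 else rk true (c i)) + min 2 (nl c)

/-- The three properties of the recursion: `good 0` is the condition `ok` on the disconnected
cograph of `t`, `good 1` is the condition for `graph true t` to be well-forced, and `good 2` is
the stronger condition `q` on `graph true t`. -/
inductive Md | ok | wf | q

def good : Md → Cotree → Prop
  | _, leaf => True
  | .ok, node _ c =>
      ∀ i, (c i).isLeaf = false → (if 2 ≤ nl c then good .wf (c i) else good .q (c i))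
  | .wf, node k c =>
      (∀ i, good .ok (c i)) ∧
        ((∀ i, rk false (c i) < rk true (node k c) → (c i).isLeaf = true) ∨
          ∃ j, (c j).isStar = true ∧ ∀ i, rk false (c i) < rk true (node k c) → i = j)
  | .q, node k c =>
      (∀ i, good .ok (c i)) ∧
        (∀ i, rk false (c i) < rk true (node k c) → (c i).isLeaf = true)

/-- the criterion for `graph b t` to be well-forced -/
def crit : Bool → Cotree → Prop
  | _, leaf => True
  | true, node k c => good .wf (node k c)
  | false, node _ c => ∀ i, (c i).isLeaf = false → good .wf (c i)

end Cotree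

end ZF36
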