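import Mathlib
import Pool.Agent.Helper36.ZF.Defs

/-! # Forts -/

namespace ZF36

open Classical

section basics
variable {V : Type} (G : SimpleGraph V)

/-- a fort: no outside vertex has exactly one neighbour in it -/
def Fort (F : Finset V) : Prop :=
  F.Nonempty ∧ ∀ u, u ∉ F → ∀ w ∈ F, G.Adj u w → ∃ w' ∈ F, w' ≠ w ∧ G.Adj u w'

/-- `W` contains no fort -/
def FF (W : Finset V) : Prop := ∀ F, F ⊆ W → ¬ Fort G F

/-- `W` contains no fort with at least two vertices -/
def DD (W : Finset V) : Prop := ∀ F, F ⊆ W → Fort G F → F.card ≤ 1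

/-- moreover some vertex outside `W` has no neighbour in `W` -/
def QQ (W : Finset V) : Prop := DD G W ∧ ∃ a, a ∉ W ∧ ∀ b ∈ W, ¬ G.Adj a b

variable {G}

theorem FF.mono {W W' : Finset V} (h : FF G W') (hs : W ⊆ W') : FF G W :=
  fun F hF => h F (hF.trans hs)

theorem DD.mono {W W' : Finset V} (h : DD G W') (hs : W ⊆ W') : DD G W :=
  fun F hF => h F (hF.trans hs)

theorem QQ.mono {W W' : Finset V} (h : QQ G W') (hs : W ⊆ W') : QQ G W := by
  obtain ⟨h1, a, ha, hb⟩ := h
  exact ⟨h1.mono hs, a, fun h => ha (hs h), fun b hb' => hb b (hs hb')⟩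

theorem FF.dd {W : Finset V} (h : FF G W) : DD G W :=
  fun F hF hf => absurd hf (h F hF)

theorem FF.empty : FF G ∅ := by
  intro F hF hf
  have : F = ∅ := Finset.subset_empty.mp hF
  subst this
  exact Finset.not_nonempty_empty hf.1

theorem DD.of_card {W : Finset V} (h : W.card ≤ 1) : DD G W :=
  fun F hF _ => (Finset.card_le_card hF).trans h

theorem Blue.not_fort {S F : Finset V} (hF : Fort G F) (hd : ∀ v ∈ F, v ∉ S) {v : V}
    (hv : Blue G S v) : v ∉ F := by
  induction hv with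
  | init h => exact fun h' => hd _ h' h
  | @force u w hu huw hz ihu ihz =>
    intro hw
    obtain ⟨w', hw', hne, hadj⟩ := hF.2 u ihu w hw huw
    exact ihz w' hadj hne hw'

theorem isZF_iff [Fintype V] {S : Finset V} : IsZF G S ↔ FF G Sᶜ := by
  constructor
  · intro h F hF hf
    obtain ⟨v, hv⟩ := hf.1
    exact Blue.not_fort hf (fun v hv => by simpa using hF hv) (h v) hv
  · intro h
    by_contra hcon
    have hcon' : ∃ v, ¬ Blue G S v := by
      simpa [IsZF] using hcon
    obtain ⟨v, hv⟩ := hcon'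
    refine h (Finset.univ.filter (fun v => ¬ Blue G S v)) ?_ ⟨⟨v, by simpa using hv⟩, ?_⟩
    · intro u hu
      simp only [Finset.mem_filter, Finset.mem_univ, true_and] at hu
      simp only [Finset.mem_compl]
      exact fun h' => hu (Blue.init h')
    · intro u hu w hw huw
      simp only [Finset.mem_filter, Finset.mem_univ, true_and, not_not] at hu hw ⊢
      by_contra hno
      push Not at hno
      refine hw (Blue.force hu huw ?_)
      intro z hz hne
      by_contra hb
      exact hno z hb hne hz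

end basics

section hom
variable {V : Type} (G : SimpleGraph V)

/-- every member of the family extends inside the family to a member of size `e` -/
def HomD (e : ℕ) : Prop := ∀ W, DD G W → ∃ W', W ⊆ W' ∧ DD G W' ∧ W'.card = e

def HomQ (e : ℕ) : Prop := ∀ W, QQ G W → ∃ W', W ⊆ W' ∧ QQ G W' ∧ W'.card + 1 = e

def HomQ2 (e : ℕ) : Prop :=
  ∀ W, 2 ≤ W.card → QQ G W → ∃ W', W ⊆ W' ∧ QQ G W' ∧ W'.card + 1 = e

def HomN (e : ℕ) : Prop := ∀ W, DD G W → ¬ QQ G W → ∃ W', W ⊆ W' ∧ DD G W' ∧ W'.card = e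

/-- data of a component -/
structure Cmp (e : ℕ) : Prop where
  dd_le : ∀ W, DD G W → W.card ≤ e
  qq_le : ∀ W, QQ G W → W.card + 1 ≤ e
  dd_ex : ∃ W, DD G W ∧ W.card = e
  qq_ex : ∃ W, QQ G W ∧ W.card + 1 = e
  qq_ext : ∀ W, QQ G W → ∃ W', W ⊂ W' ∧ DD G W'

/-- data of a part -/
structure Prt (D : ℕ) : Prop where
  dd_le : ∀ W, DD G W → W.card ≤ D
  qq_le : ∀ W, QQ G W → W.card + 1 ≤ D
  qq_ex : ∃ W, QQ G W ∧ W.card + 1 = D

variable {G}

theorem Cmp.prt {e : ℕ} (h : Cmp G e) : Prt G e := ⟨h.dd_le, h.qq_le, h.qq_ex⟩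

/-- extension to a maximal member -/
theorem exists_max [Fintype V] {P : Finset V → Prop} {W : Finset V} (h : P W) :
    ∃ W', W ⊆ W' ∧ P W' ∧ ∀ W'', W' ⊆ W'' → P W'' → W'' = W' := by
  obtain ⟨W', hW', hmax⟩ := (Set.toFinite {X : Finset V | W ⊆ X ∧ P X}).exists_maximal
    ⟨W, Finset.Subset.refl _, h⟩
  refine ⟨W', hW'.1, hW'.2, ?_⟩
  intro W'' hs hP
  exact Finset.Subset.antisymm (hmax ⟨hW'.1.trans hs, hP⟩ hs) hs

theorem wellForced_iff [Fintype V] {f : ℕ} (h1 : ∀ W, FF G W → W.card ≤ f)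
    (h2 : ∃ W, FF G W ∧ W.card = f) :
    WellForced G ↔ ∀ W, FF G W → ∃ W', W ⊆ W' ∧ FF G W' ∧ W'.card = f := by
  obtain ⟨W0, hW0, hc0⟩ := h2
  constructor
  · intro h W hW
    obtain ⟨W', hs, hF, hmax⟩ := exists_max (P := FF G) hW
    refine ⟨W', hs, hF, ?_⟩
    have hmin : IsMinimalZF G W'ᶜ := by
      refine ⟨isZF_iff.mpr (by simpa using hF), ?_⟩
      intro T hT hZ
      have h3 := isZF_iff.mp hZ
      have h4 : W' ⊆ Tᶜ := by
        intro x hx
        simp only [Finset.mem_compl]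
        intro hxT
        have := hT.1 hxT
        simp only [Finset.mem_compl] at this
        exact this hx
      have h5 := hmax _ h4 h3
      have h6 : T = W'ᶜ := by rw [← h5, compl_compl]
      exact hT.ne h6
    have hm := (h _ hmin).2 W0ᶜ (isZF_iff.mpr (by simpa using hW0))
    rw [Finset.card_compl, Finset.card_compl, hc0] at hm
    have h7 := h1 _ hF
    have h8 : W0.card ≤ Fintype.card V := Finset.card_le_univ _
    omega
  · intro h S hS
    refine ⟨hS.1, ?_⟩
    intro T hT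
    obtain ⟨W', hs, hF, hc⟩ := h _ (isZF_iff.mp hS.1)
    have h3 : W'ᶜ = S := by
      by_contra hne
      refine hS.2 W'ᶜ ?_ (isZF_iff.mpr (by simpa using hF))
      refine Finset.ssubset_iff_subset_ne.mpr ⟨?_, hne⟩
      intro x hx
      by_contra hxS
      exact (Finset.mem_compl.mp hx) (hs (Finset.mem_compl.mpr hxS))
    have h4 := h1 _ (isZF_iff.mp hT)
    rw [Finset.card_compl] at h4
    rw [← h3, Finset.card_compl, hc]
    have h5 : T.card ≤ Fintype.card V := Finset.card_le_univ _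
    omega

/-- the zero forcing number -/
theorem minimum_iff [Fintype V] {f : ℕ} (h1 : ∀ W, FF G W → W.card ≤ f)
    (h2 : ∃ W, FF G W ∧ W.card = f) (S : Finset V) (hS : IsZF G S) :
    IsMinimumZF G S ↔ S.card + f = Fintype.card V := by
  obtain ⟨W0, hW0, hc0⟩ := h2
  have h8 : W0.card ≤ Fintype.card V := Finset.card_le_univ _
  have h9 : ∀ T, IsZF G T → Fintype.card V ≤ T.card + f := by
    intro T hT
    have h4 := h1 _ (isZF_iff.mp hT)
    rw [Finset.card_compl] at h4
    omega
  constructor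
  · intro h
    have hm := h.2 W0ᶜ (isZF_iff.mpr (by simpa using hW0))
    rw [Finset.card_compl, hc0] at hm
    have := h9 S hS
    omega
  · intro h
    refine ⟨hS, fun T hT => ?_⟩
    have := h9 T hT
    omega

end hom

end ZF36
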