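import Mathlib
import Pool.Agent.Helper36.ZF.Fort

/-! # Forts in joins -/

namespace ZF36

open Classical

section sg
variable {ι : Type} {V : ι → Type} {H : ∀ i, SimpleGraph (V i)}

theorem sg_same {b : Bool} {i : ι} {a a' : V i} :
    (SG b H).Adj ⟨i, a⟩ ⟨i, a'⟩ ↔ (H i).Adj a a' := by
  constructor
  · rintro (⟨_, h⟩ | ⟨j, c, c', h1, h2, h⟩)
    · exact absurd rfl h
    · have e1 : i = j := by simpa using congrArg Sigma.fst h1
      subst e1
      have e2 : a = c := by simpa using h1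
      have e3 : a' = c' := by simpa using h2
      rw [e2, e3]
      exact h
  · intro h
    exact Or.inr ⟨i, a, a', rfl, rfl, h⟩

theorem sg_diff {b : Bool} {x y : Σ i, V i} (h : x.1 ≠ y.1) : (SG b H).Adj x y ↔ b = true := by
  constructor
  · rintro (⟨hb, _⟩ | ⟨j, c, c', h1, h2, _⟩)
    · exact hb
    · exfalso
      apply h
      rw [h1, h2]
  · intro hb
    exact Or.inl ⟨hb, h⟩

/-- the slice of a set of vertices in the part `i` -/
noncomputable def sl (W : Finset (Σ i, V i)) (i : ι) : Finset (V i) :=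
  W.preimage (Sigma.mk i) (sigma_mk_injective.injOn)

/-- a subset of the part `i` as a set of vertices of the union -/
def emb (i : ι) (w : Finset (V i)) : Finset (Σ i, V i) := w.map (Function.Embedding.sigmaMk i)

theorem mem_sl {W : Finset (Σ i, V i)} {i : ι} {a : V i} :
    a ∈ sl W i ↔ (⟨i, a⟩ : Σ i, V i) ∈ W := by
  simp [sl]

theorem mem_emb {i : ι} {w : Finset (V i)} {x : Σ i, V i} :
    x ∈ emb i w ↔ ∃ a ∈ w, (⟨i, a⟩ : Σ i, V i) = x := by
  simp [emb]

theorem mem_emb' {i : ι} {w : Finset (V i)} {a : V i} :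
    (⟨i, a⟩ : Σ i, V i) ∈ emb i w ↔ a ∈ w := by
  rw [mem_emb]
  constructor
  · rintro ⟨b, hb, h⟩
    have : b = a := by simpa using h
    rw [← this]; exact hb
  · intro h
    exact ⟨a, h, rfl⟩

theorem emb_fst {i : ι} {w : Finset (V i)} {x : Σ i, V i} (h : x ∈ emb i w) : x.1 = i := by
  obtain ⟨a, _, rfl⟩ := mem_emb.mp h
  rfl

theorem card_emb {i : ι} {w : Finset (V i)} : (emb i w).card = w.card := by
  simp [emb]

theorem sl_emb {i : ι} {w : Finset (V i)} : sl (emb i w) i = w := by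
  ext a
  rw [mem_sl, mem_emb']

theorem emb_sl {W : Finset (Σ i, V i)} {i : ι} (h : ∀ y ∈ W, y.1 = i) : emb i (sl W i) = W := by
  ext ⟨j, a⟩
  constructor
  · intro hx
    obtain ⟨b, hb, hx⟩ := mem_emb.mp hx
    rw [← hx]
    exact mem_sl.mp hb
  · intro hx
    have hj : j = i := h _ hx
    subst hj
    exact mem_emb'.mpr (mem_sl.mpr hx)

theorem card_sl {W : Finset (Σ i, V i)} {i : ι} (h : ∀ y ∈ W, y.1 = i) :
    W.card = (sl W i).card := by
  rw [← card_emb, emb_sl h]

theorem sl_mono {W W' : Finset (Σ i, V i)} (h : W ⊆ W') (i : ι) : sl W i ⊆ sl W' i := by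
  intro a ha
  exact mem_sl.mpr (h (mem_sl.mp ha))

theorem emb_mono {i : ι} {w w' : Finset (V i)} (h : w ⊆ w') : emb i w ⊆ emb i w' := by
  intro x hx
  obtain ⟨a, ha, rfl⟩ := mem_emb.mp hx
  exact mem_emb'.mpr (h ha)

theorem emb_subset {i : ι} {w : Finset (V i)} {W : Finset (Σ i, V i)} (h : w ⊆ sl W i) :
    emb i w ⊆ W := by
  intro x hx
  obtain ⟨a, ha, rfl⟩ := mem_emb.mp hx
  exact mem_sl.mp (h ha)

theorem card_le_sl {W : Finset (Σ i, V i)} {i : ι} {x : Σ i, V i}
    (h : ∀ y ∈ W, y.1 ≠ i → y = x) : W.card ≤ (sl W i).card + 1 := by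
  have h1 : W ⊆ insert x (emb i (sl W i)) := by
    rintro ⟨j, a⟩ hy
    by_cases hj : j = i
    · subst hj
      exact Finset.mem_insert_of_mem (mem_emb'.mpr (mem_sl.mpr hy))
    · rw [h _ hy hj]
      exact Finset.mem_insert_self _ _
  calc W.card ≤ (insert x (emb i (sl W i))).card := Finset.card_le_card h1
    _ ≤ (emb i (sl W i)).card + 1 := Finset.card_insert_le _ _
    _ = (sl W i).card + 1 := by rw [card_emb]

theorem sl_insert_emb {i : ι} {w : Finset (V i)} {x : Σ i, V i} (hx : x.1 ≠ i) :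
    sl (insert x (emb i w)) i = w := by
  ext a
  rw [mem_sl, Finset.mem_insert, mem_emb']
  constructor
  · rintro (h | h)
    · exact absurd (congrArg Sigma.fst h).symm hx
    · exact h
  · exact Or.inr

theorem card_insert_emb {i : ι} {w : Finset (V i)} {x : Σ i, V i} (hx : x.1 ≠ i) :
    (insert x (emb i w)).card = w.card + 1 := by
  rw [Finset.card_insert_of_notMem, card_emb]
  intro h
  exact hx (emb_fst h)

end sg

theorem fort_of_two {V : Type} {G : SimpleGraph V} {F : Finset V} (hne : F.Nonempty)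
    (h : ∀ u, u ∉ F → ∃ w1 ∈ F, ∃ w2 ∈ F, w1 ≠ w2 ∧ G.Adj u w1 ∧ G.Adj u w2) : Fort G F := by
  refine ⟨hne, ?_⟩
  intro u hu w _ _
  obtain ⟨w1, h1, w2, h2, hd, ha1, ha2⟩ := h u hu
  by_cases hw : w1 = w
  · refine ⟨w2, h2, ?_, ha2⟩
    rintro rfl
    exact hd hw
  · exact ⟨w1, h1, hw, ha1⟩

section join
variable {ι : Type} {V : ι → Type} {H : ∀ i, SimpleGraph (V i)}

theorem adj_true {x y : Σ i, V i} (h : x.1 ≠ y.1) : (SG true H).Adj x y := (sg_diff h).mpr rfl

theorem fort_emb {i : ι} {F : Finset (V i)} (hF : Fort (H i) F) (hc : 2 ≤ F.card) :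
    Fort (SG true H) (emb i F) := by
  obtain ⟨⟨a0, ha0⟩, hf⟩ := hF
  refine ⟨⟨⟨i, a0⟩, mem_emb'.mpr ha0⟩, ?_⟩
  rintro ⟨j, u⟩ hu w hw hadj
  obtain ⟨a, ha, rfl⟩ := mem_emb.mp hw
  by_cases hj : j = i
  · subst hj
    have hu' : u ∉ F := fun h => hu (mem_emb'.mpr h)
    obtain ⟨a', ha', hne, hadj'⟩ := hf u hu' a ha (sg_same.mp hadj)
    refine ⟨⟨j, a'⟩, mem_emb'.mpr ha', ?_, sg_same.mpr hadj'⟩
    intro h
    exact hne (by simpa using h)
  · obtain ⟨a', ha', hne⟩ := Finset.exists_mem_ne (by omega : 1 < F.card) a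
    refine ⟨⟨i, a'⟩, mem_emb'.mpr ha', ?_, adj_true hj⟩
    intro h
    exact hne (by simpa using h)

theorem fort_sl {b : Bool} {i : ι} {F : Finset (Σ i, V i)} (h : ∀ y ∈ F, y.1 = i)
    (hF : Fort (SG b H) F) : Fort (H i) (sl F i) := by
  obtain ⟨⟨x, hx⟩, hf⟩ := hF
  have hxi := h x hx
  obtain ⟨j, a⟩ := x
  have hj : j = i := hxi
  subst hj
  refine ⟨⟨a, mem_sl.mpr hx⟩, ?_⟩
  intro u hu w hw hadj
  obtain ⟨⟨j', a'⟩, h1, h2, h3⟩ :=
    hf ⟨j, u⟩ (fun h => hu (mem_sl.mpr h)) ⟨j, w⟩ (mem_sl.mp hw) (sg_same.mpr hadj)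
  have hj' : j' = j := h _ h1
  subst hj'
  refine ⟨a', mem_sl.mpr h1, ?_, sg_same.mp h3⟩
  rintro rfl
  exact h2 rfl

variable [Nontrivial ι] [∀ i, Nonempty (V i)]

omit [∀ i, Nonempty (V i)] in
theorem exists_other [∀ i, Nonempty (V i)] (i : ι) : ∃ x : Σ i, V i, x.1 ≠ i := by
  obtain ⟨j, hj⟩ := exists_ne i
  exact ⟨⟨j, Classical.arbitrary _⟩, hj⟩

theorem fort_card {F : Finset (Σ i, V i)} (hF : Fort (SG true H) F) : 2 ≤ F.card := by
  by_contra hlt
  obtain ⟨x, hx⟩ := hF.1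
  obtain ⟨u, hu⟩ := exists_other (V := V) x.1
  have h1 : ∀ y ∈ F, y = x := by
    intro y hy
    by_contra hne
    have : 1 < F.card := Finset.one_lt_card.mpr ⟨y, hy, x, hx, hne⟩
    omega
  obtain ⟨w', h2, h3, _⟩ := hF.2 u (fun h => hu (by rw [h1 u h])) x hx (adj_true hu)
  exact h3 (h1 w' h2)

theorem ff_iff_dd {W : Finset (Σ i, V i)} : FF (SG true H) W ↔ DD (SG true H) W := by
  constructor
  · exact FF.dd
  · intro h F hF hf
    have h1 := h F hF hf
    have h2 := fort_card hf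
    omega

theorem ff_emb {i : ι} {w : Finset (V i)} (h : DD (H i) w) : FF (SG true H) (emb i w) := by
  intro F hF hf
  have h1 : ∀ y ∈ F, y.1 = i := fun y hy => emb_fst (hF hy)
  have h2 := fort_sl h1 hf
  have h3 : sl F i ⊆ w := by
    intro a ha
    exact mem_emb'.mp (hF (mem_sl.mp ha))
  have h4 := h _ h3 h2
  have h5 := fort_card hf
  rw [card_sl h1] at h5
  omega

theorem ff_insert {i : ι} {w : Finset (V i)} {x : Σ i, V i} (h : QQ (H i) w) (hx : x.1 ≠ i) :
    FF (SG true H) (insert x (emb i w)) := by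
  intro F hF hf
  by_cases hxF : x ∈ F
  · obtain ⟨_, a, ha, hb⟩ := h
    have hne : (⟨i, a⟩ : Σ i, V i) ∉ insert x (emb i w) := by
      intro hm
      rcases Finset.mem_insert.mp hm with hm | hm
      · exact hx (congrArg Sigma.fst hm).symm
      · exact ha (mem_emb'.mp hm)
    obtain ⟨w', h1, h2, h3⟩ := hf.2 ⟨i, a⟩ (fun h => hne (hF h)) x hxF
      (adj_true (fun e => hx e.symm))
    rcases Finset.mem_insert.mp (hF h1) with hm | hm
    · exact h2 hm
    · obtain ⟨c, hc, rfl⟩ := mem_emb.mp hm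
      exact hb c hc (sg_same.mp h3)
  · refine ff_emb h.1 F ?_ hf
    intro y hy
    rcases Finset.mem_insert.mp (hF hy) with hm | hm
    · exact absurd (hm ▸ hy) hxF
    · exact hm

omit [Nontrivial ι] [∀ i, Nonempty (V i)] in
theorem dd_sl {W : Finset (Σ i, V i)} (h : FF (SG true H) W) (i : ι) : DD (H i) (sl W i) := by
  intro F hF hf
  by_contra hlt
  exact h _ (emb_subset hF) (fort_emb hf (by omega))

omit [Nontrivial ι] [∀ i, Nonempty (V i)] in
theorem join_aux {W : Finset (Σ i, V i)} (h : FF (SG true H) W) {y0 y1 : Σ i, V i}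
    (h0 : y0 ∈ W) (h1 : y1 ∈ W) (hne : y0.1 ≠ y1.1) (hA : ∀ y ∈ W, y.1 ≠ y0.1 → y = y1) :
    ∃ (i : ι) (x : Σ i, V i), x.1 ≠ i ∧ (∀ y ∈ W, y.1 ≠ i → y = x) ∧ QQ (H i) (sl W i) := by
  by_cases hQ : QQ (H y0.1) (sl W y0.1)
  · exact ⟨y0.1, y1, fun e => hne e.symm, hA, hQ⟩
  · have hdom : ∀ a, a ∉ sl W y0.1 → ∃ b ∈ sl W y0.1, (H y0.1).Adj a b := by
      intro a ha
      by_contra hno
      push Not at hno
      exact hQ ⟨dd_sl h _, a, ha, hno⟩
    -- a vertex of the part of `y0` outside `W` has two neighbours in `W`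
    have hin : ∀ u : Σ i, V i, u ∉ W → u.1 = y0.1 →
        ∃ w1 ∈ W, ∃ w2 ∈ W, w1 ≠ w2 ∧ (SG true H).Adj u w1 ∧ (SG true H).Adj u w2 := by
      rintro ⟨j, u⟩ hu hj
      change j = y0.1 at hj
      subst hj
      obtain ⟨b, hb, hadj⟩ := hdom u (fun hm => hu (mem_sl.mp hm))
      refine ⟨y1, h1, ⟨y0.1, b⟩, mem_sl.mp hb, ?_, adj_true hne, sg_same.mpr hadj⟩
      intro e
      exact hne (congrArg Sigma.fst e).symm
    by_cases h2 : ∃ y ∈ W, y.1 = y0.1 ∧ y ≠ y0
    · exfalso
      obtain ⟨y, hy, hy1, hy2⟩ := h2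
      refine h W (Finset.Subset.refl _) (fort_of_two ⟨y0, h0⟩ ?_)
      intro u hu
      by_cases hj : u.1 = y0.1
      · exact hin u hu hj
      · exact ⟨y, hy, y0, h0, hy2, adj_true (by rw [hy1]; exact hj), adj_true hj⟩
    · push Not at h2
      by_cases hQ' : QQ (H y1.1) (sl W y1.1)
      · refine ⟨y1.1, y0, hne, ?_, hQ'⟩
        intro y hy hy1
        apply h2 y hy
        by_contra hy0
        exact hy1 (by rw [hA y hy hy0])
      · exfalso
        refine h W (Finset.Subset.refl _) (fort_of_two ⟨y0, h0⟩ ?_)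
        intro u hu
        by_cases hj : u.1 = y0.1
        · exact hin u hu hj
        · by_cases hj1 : u.1 = y1.1
          · obtain ⟨j, u⟩ := u
            change j = y1.1 at hj1
            subst hj1
            have : ∃ b ∈ sl W y1.1, (H y1.1).Adj u b := by
              by_contra hno
              push Not at hno
              exact hQ' ⟨dd_sl h _, u, fun hm => hu (mem_sl.mp hm), hno⟩
            obtain ⟨b, hb, hadj⟩ := this
            refine ⟨y0, h0, ⟨y1.1, b⟩, mem_sl.mp hb, ?_, adj_true hj, sg_same.mpr hadj⟩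
            intro e
            have e' := congrArg Sigma.fst e
            exact hne e'
          · exact ⟨y0, h0, y1, h1, fun e => hne (by rw [e]), adj_true hj, adj_true hj1⟩

omit [∀ i, Nonempty (V i)] in
theorem join_elim {W : Finset (Σ i, V i)} (h : FF (SG true H) W) :
    (∃ i, (∀ y ∈ W, y.1 = i) ∧ DD (H i) (sl W i)) ∨
    ∃ (i : ι) (x : Σ i, V i), x.1 ≠ i ∧ (∀ y ∈ W, y.1 ≠ i → y = x) ∧ QQ (H i) (sl W i) := by
  by_cases hone : ∃ i, ∀ y ∈ W, y.1 = i
  · obtain ⟨i, hi⟩ := hone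
    exact Or.inl ⟨i, hi, dd_sl h i⟩
  · right
    push Not at hone
    obtain ⟨i0, _⟩ := exists_pair_ne ι
    obtain ⟨y0, h0, _⟩ := hone i0
    obtain ⟨y1, h1, hne⟩ := hone y0.1
    -- at most two parts
    have hthree : ∀ y ∈ W, y.1 = y0.1 ∨ y.1 = y1.1 := by
      intro y hy
      by_contra hcon
      push Not at hcon
      obtain ⟨hc0, hc1⟩ := hcon
      refine h {y0, y1, y} ?_ (fort_of_two ⟨y0, by simp⟩ ?_)
      · intro z hz
        simp only [Finset.mem_insert, Finset.mem_singleton] at hz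
        rcases hz with rfl | rfl | rfl <;> assumption
      · intro u _
        by_cases hu0 : u.1 = y0.1
        · refine ⟨y1, by simp, y, by simp, ?_, adj_true ?_, adj_true ?_⟩
          · intro e; exact hc1 (by rw [e])
          · rw [hu0]; exact hne.symm
          · rw [hu0]; exact hc0.symm
        · by_cases hu1 : u.1 = y1.1
          · refine ⟨y0, by simp, y, by simp, ?_, adj_true hu0, adj_true ?_⟩
            · intro e; exact hc0 (by rw [e])
            · rw [hu1]; exact hc1.symm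
          · exact ⟨y0, by simp, y1, by simp, fun e => hne (by rw [e]), adj_true hu0, adj_true hu1⟩
    -- one of the two parts has a single vertex of `W`
    by_cases ha : ∀ y ∈ W, y.1 = y1.1 → y = y1
    · refine join_aux h h0 h1 hne.symm ?_
      intro y hy hy0
      exact ha y hy ((hthree y hy).resolve_left hy0)
    · by_cases hb : ∀ y ∈ W, y.1 = y0.1 → y = y0
      · refine join_aux h h1 h0 hne ?_
        intro y hy hy1
        exact hb y hy ((hthree y hy).resolve_right hy1)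
      · exfalso
        push Not at ha hb
        obtain ⟨z1, hz1, hz1', hz1n⟩ := ha
        obtain ⟨z0, hz0, hz0', hz0n⟩ := hb
        refine h {y0, z0, y1, z1} ?_ (fort_of_two ⟨y0, by simp⟩ ?_)
        · intro z hz
          simp only [Finset.mem_insert, Finset.mem_singleton] at hz
          rcases hz with rfl | rfl | rfl | rfl <;> assumption
        · intro u _
          by_cases hu0 : u.1 = y0.1
          · refine ⟨z1, by simp, y1, by simp, hz1n, adj_true ?_, adj_true ?_⟩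
            · rw [hu0, hz1']; exact hne.symm
            · rw [hu0]; exact hne.symm
          · refine ⟨z0, by simp, y0, by simp, hz0n, adj_true ?_, adj_true hu0⟩
            rw [hz0']; exact hu0

theorem qq_join_iff {W : Finset (Σ i, V i)} :
    QQ (SG true H) W ↔ ∃ i, (∀ y ∈ W, y.1 = i) ∧ QQ (H i) (sl W i) := by
  constructor
  · rintro ⟨h1, ⟨i, a⟩, ha, hb⟩
    refine ⟨i, ?_, dd_sl (ff_iff_dd.mpr h1) i, a, fun hm => ha (mem_sl.mp hm), ?_⟩
    · intro y hy
      by_contra hne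
      exact hb y hy (adj_true (fun e => hne e.symm))
    · intro b hb' hadj
      exact hb _ (mem_sl.mp hb') (sg_same.mpr hadj)
  · rintro ⟨i, h1, h2, a, ha, hb⟩
    refine ⟨?_, ⟨i, a⟩, fun hm => ha (mem_sl.mpr hm), ?_⟩
    · have := ff_emb h2
      rw [emb_sl h1] at this
      exact this.dd
    · rintro ⟨j, b⟩ hb' hadj
      have hj : j = i := h1 _ hb'
      subst hj
      exact hb b (mem_sl.mpr hb') (sg_same.mp hadj)

end join

end ZF36
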