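import Mathlib
import Pool.Agent.Helper36.ZF.Join

/-! # The recursion step at a join -/

namespace ZF36

open Classical

set_option linter.unusedSectionVars false
set_option linter.style.haveILetI false

section join
variable {ι : Type} [Fintype ι] [Nontrivial ι] {V : ι → Type} [∀ i, Fintype (V i)]
  [∀ i, Nonempty (V i)] {H : ∀ i, SimpleGraph (V i)} {D : ι → ℕ}

omit [∀ i, Fintype (V i)] [∀ i, Nonempty (V i)] in
theorem exists_sup (D : ι → ℕ) : ∃ m, Finset.univ.sup D = D m := by
  obtain ⟨m, _, hm⟩ := Finset.exists_mem_eq_sup (Finset.univ : Finset ι) Finset.univ_nonempty D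
  exact ⟨m, hm⟩

omit [Nontrivial ι] [∀ i, Fintype (V i)] [∀ i, Nonempty (V i)] in
theorem le_sup' (D : ι → ℕ) (i : ι) : D i ≤ Finset.univ.sup D :=
  Finset.le_sup (f := D) (Finset.mem_univ i)

omit [∀ i, Fintype (V i)] in
theorem qq_emb {i : ι} {w : Finset (V i)} (h : QQ (H i) w) : QQ (SG true H) (emb i w) :=
  qq_join_iff.mpr ⟨i, fun _ hy => emb_fst hy, by rw [sl_emb]; exact h⟩

omit [∀ i, Fintype (V i)] in
/-- in the second case of `join_elim` the size is at most `D i` -/
theorem card_case_b (hp : ∀ i, Prt (H i) (D i)) {W : Finset (Σ i, V i)} {i : ι} {x : Σ i, V i}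
    (h : ∀ y ∈ W, y.1 ≠ i → y = x) (hQ : QQ (H i) (sl W i)) : W.card ≤ D i :=
  (card_le_sl h).trans ((hp i).qq_le _ hQ)

omit [∀ i, Fintype (V i)] in
theorem cmp_join (hp : ∀ i, Prt (H i) (D i)) : Cmp (SG true H) (Finset.univ.sup D) := by
  obtain ⟨m, hm⟩ := exists_sup D
  obtain ⟨w, hw, hc⟩ := (hp m).qq_ex
  obtain ⟨x, hx⟩ := exists_other (V := V) m
  refine ⟨?_, ?_, ?_, ?_, ?_⟩
  · intro W hW
    rcases join_elim (ff_iff_dd.mpr hW) with ⟨i, h1, h2⟩ | ⟨i, x, _, h1, h2⟩
    · rw [card_sl h1]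
      exact ((hp i).dd_le _ h2).trans (le_sup' D i)
    · exact (card_case_b hp h1 h2).trans (le_sup' D i)
  · intro W hW
    obtain ⟨i, h1, h2⟩ := qq_join_iff.mp hW
    rw [card_sl h1]
    exact ((hp i).qq_le _ h2).trans (le_sup' D i)
  · refine ⟨insert x (emb m w), (ff_insert hw hx).dd, ?_⟩
    rw [card_insert_emb hx, hc, hm]
  · refine ⟨emb m w, qq_emb hw, ?_⟩
    rw [card_emb, hc, hm]
  · intro W hW
    obtain ⟨i, h1, h2⟩ := qq_join_iff.mp hW
    obtain ⟨y, hy⟩ := exists_other (V := V) i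
    have h3 := (ff_insert h2 hy).dd
    rw [emb_sl h1] at h3
    exact ⟨_, Finset.ssubset_insert (fun h => hy (h1 y h)), h3⟩

/-- a part with a single vertex -/
theorem qq_leaf {V : Type} [Subsingleton V] {G : SimpleGraph V} {W : Finset V} (h : QQ G W) :
    W = ∅ := by
  obtain ⟨_, a, ha, _⟩ := h
  apply Finset.eq_empty_of_forall_notMem
  intro b hb
  exact ha (Subsingleton.elim b a ▸ hb)

theorem Prt.leaf_eq {V : Type} [Subsingleton V] {G : SimpleGraph V} {e : ℕ} (h : Prt G e) :
    e = 1 := by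
  obtain ⟨w, hw, hc⟩ := h.qq_ex
  rw [qq_leaf hw] at hc
  simpa using hc.symm

variable {okA E : ι → Prop}

/-- the hypotheses on the parts -/
structure JH (H : ∀ i, SimpleGraph (V i)) (D : ι → ℕ) (okA E : ι → Prop) : Prop where
  prt : ∀ i, Prt (H i) (D i)
  h1 : ∀ i, okA i → HomQ (H i) (D i) ∧ HomN (H i) (D i)
  h2 : ∀ i, ¬ Subsingleton (V i) → HomQ2 (H i) (D i) → HomN (H i) (D i) → okA i
  h3 : ∀ i, Subsingleton (V i) → okA i
  h4 : ∀ i, E i → okA i
  h5 : ∀ i, ¬ Subsingleton (V i) → ∀ x, QQ (H i) {x}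
  h6 : ∀ i, ¬ Subsingleton (V i) → D i = 2 → ¬ E i → ∃ W, DD (H i) W ∧ W.card = 2
  h7 : ∀ i, E i → ∀ W, DD (H i) W → W.card ≤ 1
  h8 : ∀ i, E i → ¬ Subsingleton (V i)

theorem JH.two_le (h : JH H D okA E) {i : ι} (hi : ¬ Subsingleton (V i)) : 2 ≤ D i := by
  have := (h.prt i).qq_le _ (h.h5 i hi (Classical.arbitrary _))
  rw [Finset.card_singleton] at this
  exact this

theorem JH.empty_qq (h : JH H D okA E) (i : ι) : QQ (H i) ∅ := by
  obtain ⟨w, hw, _⟩ := (h.prt i).qq_ex
  exact hw.mono (Finset.empty_subset _)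

theorem JH.ext1 (h : JH H D okA E) {i : ι} (hok : okA i) (hD : Finset.univ.sup D = D i)
    {w : Finset (V i)} (hw : QQ (H i) w) {x : Σ i, V i} (hx : x.1 ≠ i) :
    ∃ W', insert x (emb i w) ⊆ W' ∧ DD (SG true H) W' ∧ W'.card = Finset.univ.sup D := by
  obtain ⟨w', h1, h2, h3⟩ := (h.h1 i hok).1 w hw
  refine ⟨insert x (emb i w'), Finset.insert_subset_insert _ (emb_mono h1), (ff_insert h2 hx).dd,
    ?_⟩
  rw [card_insert_emb hx, h3, hD]

theorem JH.ext3 (h : JH H D okA E) (hok : ∀ i, okA i) (x : Σ i, V i) :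
    ∃ W', {x} ⊆ W' ∧ DD (SG true H) W' ∧ W'.card = Finset.univ.sup D := by
  obtain ⟨m, hm⟩ := exists_sup D
  by_cases hxm : x.1 = m
  · obtain ⟨j, a⟩ := x
    change j = m at hxm
    subst hxm
    by_cases hQ : QQ (H j) {a}
    · obtain ⟨y, hy⟩ := exists_other (V := V) j
      obtain ⟨W', h1, h2, h3⟩ := h.ext1 (hok j) hm hQ hy
      refine ⟨W', ?_, h2, h3⟩
      intro z hz
      rw [Finset.mem_singleton] at hz
      subst hz
      exact h1 (Finset.mem_insert_of_mem (mem_emb'.mpr (Finset.mem_singleton_self _)))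
    · obtain ⟨w', h1, h2, h3⟩ := (h.h1 j (hok j)).2 {a} (DD.of_card (by simp)) hQ
      refine ⟨emb j w', ?_, (ff_emb h2).dd, ?_⟩
      · intro z hz
        rw [Finset.mem_singleton] at hz
        subst hz
        exact mem_emb'.mpr (h1 (Finset.mem_singleton_self _))
      · rw [card_emb, h3, hm]
  · obtain ⟨W', h1, h2, h3⟩ := h.ext1 (hok m) hm (h.empty_qq m) hxm
    refine ⟨W', ?_, h2, h3⟩
    intro z hz
    rw [Finset.mem_singleton] at hz
    subst hz
    exact h1 (Finset.mem_insert_self _ _)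

theorem JH.ext3' (h : JH H D okA E) (hok : ∀ i, okA i) {W : Finset (Σ i, V i)}
    (hW : W.card ≤ 1) :
    ∃ W', W ⊆ W' ∧ DD (SG true H) W' ∧ W'.card = Finset.univ.sup D := by
  obtain ⟨i0, _⟩ := exists_pair_ne ι
  obtain ⟨x0, _⟩ := exists_other (V := V) i0
  have : ∃ x, W ⊆ {x} := by
    rcases Finset.eq_empty_or_nonempty W with h | ⟨x, hx⟩
    · exact ⟨x0, by rw [h]; exact Finset.empty_subset _⟩
    · refine ⟨x, ?_⟩
      intro y hy
      rw [Finset.mem_singleton]
      exact Finset.card_le_one.mp hW y hy x hx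
  obtain ⟨x, hx⟩ := this
  obtain ⟨W', h1, h2, h3⟩ := h.ext3 hok x
  exact ⟨W', hx.trans h1, h2, h3⟩

theorem JH.hom_of (h : JH H D okA E) (hok : ∀ i, okA i)
    (hs : (∀ i, D i < Finset.univ.sup D → Subsingleton (V i)) ∨
      ∃ j, E j ∧ ∀ i, D i < Finset.univ.sup D → i = j) :
    HomD (SG true H) (Finset.univ.sup D) := by
  -- the second case of `join_elim`
  have key : ∀ (W : Finset (Σ i, V i)) (i : ι) (x : Σ i, V i), x.1 ≠ i →
      (∀ y ∈ W, y.1 ≠ i → y = x) → QQ (H i) (sl W i) →
      ∃ W', W ⊆ W' ∧ DD (SG true H) W' ∧ W'.card = Finset.univ.sup D := by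
    intro W i x hx hy hQ
    have hWs : W ⊆ insert x (emb i (sl W i)) := by
      rintro ⟨j, a⟩ hm
      by_cases hj : j = i
      · subst hj
        exact Finset.mem_insert_of_mem (mem_emb'.mpr (mem_sl.mpr hm))
      · rw [hy _ hm hj]
        exact Finset.mem_insert_self _ _
    rcases eq_or_lt_of_le (le_sup' D i) with hD | hD
    · obtain ⟨W', h1, h2, h3⟩ := h.ext1 (hok i) hD.symm hQ hx
      exact ⟨W', hWs.trans h1, h2, h3⟩
    · rcases Finset.eq_empty_or_nonempty (sl W i) with he | ⟨y, hyw⟩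
      · apply h.ext3' hok
        refine (card_le_sl hy).trans ?_
        rw [he]
        simp
      · rcases hs with hs | ⟨j, hE, hs⟩
        · haveI := hs i hD
          have := qq_leaf hQ
          rw [this] at hyw
          exact absurd hyw (Finset.notMem_empty y)
        · have hij := hs i hD
          subst hij
          have hxD : Finset.univ.sup D = D x.1 := by
            rcases eq_or_lt_of_le (le_sup' D x.1) with hD' | hD'
            · exact hD'.symm
            · exact absurd (hs _ hD') hx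
          have hnl : ¬ Subsingleton (V x.1) := by
            intro hsub
            haveI := hsub
            have h1 := (h.prt x.1).leaf_eq
            have h2 := h.two_le (h.h8 i hE)
            omega
          obtain ⟨W', h1, h2, h3⟩ := h.ext1 (x := ⟨i, y⟩) (hok x.1) hxD (h.h5 _ hnl x.2)
            (fun e => hx e.symm)
          refine ⟨W', ?_, h2, h3⟩
          intro z hz
          apply h1
          rcases Finset.mem_insert.mp (hWs hz) with hz' | hz'
          · rw [hz']
            exact Finset.mem_insert_of_mem (mem_emb'.mpr (Finset.mem_singleton_self _))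
          · obtain ⟨a, ha, rfl⟩ := mem_emb.mp hz'
            have hc := h.h7 i hE _ hQ.1
            have : a = y := Finset.card_le_one.mp hc a ha y hyw
            rw [this]
            exact Finset.mem_insert_self _ _
  intro W hW
  rcases join_elim (ff_iff_dd.mpr hW) with ⟨i, h1, h2⟩ | ⟨i, x, hx, h1, h2⟩
  · by_cases hQ : QQ (H i) (sl W i)
    · obtain ⟨x, hx⟩ := exists_other (V := V) i
      exact key W i x hx (fun y hy hne => absurd (h1 y hy) hne) hQ
    · rcases eq_or_lt_of_le (le_sup' D i) with hD | hD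
      · obtain ⟨w', h3, h4, h5⟩ := (h.h1 i (hok i)).2 _ h2 hQ
        refine ⟨emb i w', ?_, (ff_emb h4).dd, ?_⟩
        · rw [← emb_sl h1]
          exact emb_mono h3
        · rw [card_emb, h5, hD]
      · apply h.ext3' hok
        rw [card_sl h1]
        rcases hs with hs | ⟨j, hE, hs⟩
        · haveI := hs i hD
          exact Finset.card_le_one.mpr (fun a _ b _ => Subsingleton.elim a b)
        · have hij := hs i hD
          subst hij
          exact h.h7 i hE _ h2
  · exact key W i x hx h1 h2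

/-- the pieces of the converse -/
theorem JH.homN (h : JH H D okA E) (hW : HomD (SG true H) (Finset.univ.sup D)) {i : ι}
    (hi : ¬ Subsingleton (V i)) : HomN (H i) (Finset.univ.sup D) := by
  intro w hw hnq
  obtain ⟨W', h1, h2, h3⟩ := hW _ (ff_emb hw).dd
  have hne : w.Nonempty := by
    rw [Finset.nonempty_iff_ne_empty]
    rintro rfl
    exact hnq (h.empty_qq i)
  obtain ⟨a, ha⟩ := hne
  have haW : (⟨i, a⟩ : Σ i, V i) ∈ W' := h1 (mem_emb'.mpr ha)
  have hsub : w ⊆ sl W' i := fun b hb => mem_sl.mpr (h1 (mem_emb'.mpr hb))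
  rcases join_elim (ff_iff_dd.mpr h2) with ⟨k, h4, h5⟩ | ⟨k, x, hx, h4, h5⟩
  · have hk : i = k := h4 _ haW
    subst hk
    refine ⟨sl W' i, hsub, h5, ?_⟩
    rw [← card_sl h4, h3]
  · by_cases hk : i = k
    · subst hk
      exact absurd (h5.mono hsub) hnq
    · exfalso
      apply hnq
      have : w = {a} := by
        ext b
        rw [Finset.mem_singleton]
        constructor
        · intro hb
          have e1 := h4 _ (h1 (mem_emb'.mpr hb)) hk
          have e2 := h4 _ haW hk
          have e3 := e1.trans e2.symm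
          simpa using e3
        · rintro rfl
          exact ha
      rw [this]
      exact h.h5 i hi a

theorem JH.homQ2 (h : JH H D okA E) (hW : HomD (SG true H) (Finset.univ.sup D)) {i : ι}
    {w : Finset (V i)} (hc : 2 ≤ w.card) (hw : QQ (H i) w) :
    D i = Finset.univ.sup D ∧ ∃ w', w ⊆ w' ∧ QQ (H i) w' ∧ w'.card + 1 = D i := by
  obtain ⟨x, hx⟩ := exists_other (V := V) i
  obtain ⟨W', h1, h2, h3⟩ := hW _ (ff_insert hw hx).dd
  have hxW : x ∈ W' := h1 (Finset.mem_insert_self _ _)
  have hwW : ∀ b ∈ w, (⟨i, b⟩ : Σ i, V i) ∈ W' :=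
    fun b hb => h1 (Finset.mem_insert_of_mem (mem_emb'.mpr hb))
  obtain ⟨a, ha, b, hb, hab⟩ := Finset.one_lt_card.mp (by omega : 1 < w.card)
  rcases join_elim (ff_iff_dd.mpr h2) with ⟨k, h4, h5⟩ | ⟨k, x', hx', h4, h5⟩
  · exfalso
    have e1 := h4 _ hxW
    have e2 := h4 _ (hwW a ha)
    exact hx (e1.trans e2.symm)
  · by_cases hk : i = k
    · subst hk
      have h6 := card_le_sl h4
      have h7 := (h.prt i).qq_le _ h5
      have h8 := le_sup' D i
      refine ⟨by omega, sl W' i, fun c hc => mem_sl.mpr (hwW c hc), h5, by omega⟩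
    · exfalso
      have e1 := h4 _ (hwW a ha) hk
      have e2 := h4 _ (hwW b hb) hk
      have e3 := e1.trans e2.symm
      exact hab (by simpa using e3)

theorem JH.star_of_small (h : JH H D okA E) (hW : HomD (SG true H) (Finset.univ.sup D)) {i : ι}
    (hi : ¬ Subsingleton (V i)) (hD : D i < Finset.univ.sup D) : E i := by
  have h2 := h.two_le hi
  have h3 : D i = 2 := by
    by_contra hne
    obtain ⟨w, hw, hc⟩ := (h.prt i).qq_ex
    have := (h.homQ2 hW (i := i) (w := w) (by omega) hw).1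
    omega
  by_contra hE
  obtain ⟨w, hw, hc⟩ := h.h6 i hi h3 hE
  have hnq : ¬ QQ (H i) w := by
    intro hq
    have := (h.prt i).qq_le _ hq
    omega
  obtain ⟨w', _, h5, h6⟩ := h.homN hW hi w hw hnq
  have := (h.prt i).dd_le _ h5
  omega

theorem JH.ok_of_hom (h : JH H D okA E) (hW : HomD (SG true H) (Finset.univ.sup D)) (i : ι) :
    okA i := by
  by_cases hi : Subsingleton (V i)
  · exact h.h3 i hi
  · rcases eq_or_lt_of_le (le_sup' D i) with hD | hD
    · refine h.h2 i hi ?_ ?_
      · intro w hc hw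
        exact (h.homQ2 hW hc hw).2
      · rw [hD]
        exact h.homN hW hi
    · exact h.h4 i (h.star_of_small hW hi hD)

theorem JH.wf_iff (h : JH H D okA E) :
    HomD (SG true H) (Finset.univ.sup D) ↔ (∀ i, okA i) ∧
      ((∀ i, D i < Finset.univ.sup D → Subsingleton (V i)) ∨
        ∃ j, E j ∧ ∀ i, D i < Finset.univ.sup D → i = j) := by
  constructor
  · intro hW
    refine ⟨h.ok_of_hom hW, ?_⟩
    by_cases hall : ∀ i, D i < Finset.univ.sup D → Subsingleton (V i)
    · exact Or.inl hall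
    · right
      push Not at hall
      obtain ⟨j, hj, hnl⟩ := hall
      have hnl' : ¬ Subsingleton (V j) := not_subsingleton_iff_nontrivial.mpr hnl
      refine ⟨j, h.star_of_small hW hnl' hj, ?_⟩
      intro i hi
      by_contra hij
      obtain ⟨l⟩ : Nonempty (V j) := inferInstance
      obtain ⟨y⟩ : Nonempty (V i) := inferInstance
      obtain ⟨W', h1, h2, h3⟩ := hW _
        (ff_insert (x := ⟨i, y⟩) (h.h5 j hnl' l) hij).dd
      have hy : (⟨i, y⟩ : Σ i, V i) ∈ W' := h1 (Finset.mem_insert_self _ _)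
      have hl : (⟨j, l⟩ : Σ i, V i) ∈ W' :=
        h1 (Finset.mem_insert_of_mem (mem_emb'.mpr (Finset.mem_singleton_self _)))
      rcases join_elim (ff_iff_dd.mpr h2) with ⟨k, h4, _⟩ | ⟨k, x, hx, h4, h5⟩
      · have e1 := h4 _ hy
        have e2 := h4 _ hl
        exact hij (e1.trans e2.symm)
      · have h6 := card_case_b h.prt h4 h5
        have hki : i ≠ k := by
          rintro rfl
          omega
        have hkj : j ≠ k := by
          rintro rfl
          omega
        have e1 := h4 _ hy hki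
        have e2 := h4 _ hl hkj
        have e3 := congrArg Sigma.fst (e1.trans e2.symm)
        exact hij e3
  · rintro ⟨hok, hs⟩
    exact h.hom_of hok hs

theorem JH.q_iff (h : JH H D okA E) (hok : ∀ i, okA i) :
    HomQ (SG true H) (Finset.univ.sup D) ↔
      ∀ i, D i < Finset.univ.sup D → Subsingleton (V i) := by
  constructor
  · intro hW i hD
    by_contra hi
    obtain ⟨a⟩ : Nonempty (V i) := inferInstance
    obtain ⟨W', h1, h2, h3⟩ := hW _ (qq_emb (h.h5 i hi a))
    obtain ⟨k, h4, h5⟩ := qq_join_iff.mp h2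
    have hk : i = k := h4 _ (h1 (mem_emb'.mpr (Finset.mem_singleton_self _)))
    subst hk
    have h6 := (h.prt i).qq_le _ h5
    rw [← card_sl h4] at h6
    omega
  · intro hs W hW
    obtain ⟨i, h1, h2⟩ := qq_join_iff.mp hW
    rcases eq_or_lt_of_le (le_sup' D i) with hD | hD
    · obtain ⟨w', h3, h4, h5⟩ := (h.h1 i (hok i)).1 _ h2
      refine ⟨emb i w', ?_, qq_emb h4, ?_⟩
      · rw [← emb_sl h1]
        exact emb_mono h3
      · rw [card_emb, h5, hD]
    · haveI := hs i hD
      have he : W = ∅ := by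
        rw [← Finset.card_eq_zero, card_sl h1, qq_leaf h2]
        rfl
      obtain ⟨m, hm⟩ := exists_sup D
      obtain ⟨w, hw, hc⟩ := (h.prt m).qq_ex
      refine ⟨emb m w, by rw [he]; exact Finset.empty_subset _, qq_emb hw, ?_⟩
      rw [card_emb, hc, hm]

end join

end ZF36
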