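import Mathlib
import Pool.Agent.Helper36.ZF.JoinHom

/-! # Forts in disjoint unions and the recursion step at a union -/

namespace ZF36

open Classical

set_option linter.unusedSectionVars false
set_option linter.style.haveILetI false

theorem Fort.union {V : Type} [DecidableEq V] {G : SimpleGraph V} {F F' : Finset V} (h : Fort G F)
    (h' : Fort G F') : Fort G (F ∪ F') := by
  refine ⟨h.1.mono Finset.subset_union_left, ?_⟩
  intro u hu w hw hadj
  rw [Finset.notMem_union] at hu
  rcases Finset.mem_union.mp hw with hw | hw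
  · obtain ⟨w', h1, h2, h3⟩ := h.2 u hu.1 w hw hadj
    exact ⟨w', Finset.mem_union_left _ h1, h2, h3⟩
  · obtain ⟨w', h1, h2, h3⟩ := h'.2 u hu.2 w hw hadj
    exact ⟨w', Finset.mem_union_right _ h1, h2, h3⟩

section un
variable {ι : Type} {V : ι → Type} {H : ∀ i, SimpleGraph (V i)}

theorem adj_false {x y : Σ i, V i} (h : (SG false H).Adj x y) : x.1 = y.1 := by
  by_contra hne
  have := (sg_diff hne).mp h
  exact absurd this (by decide)

theorem fort_emb_false {i : ι} {F : Finset (V i)} (hF : Fort (H i) F) :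
    Fort (SG false H) (emb i F) := by
  obtain ⟨⟨a0, ha0⟩, hf⟩ := hF
  refine ⟨⟨⟨i, a0⟩, mem_emb'.mpr ha0⟩, ?_⟩
  rintro ⟨j, u⟩ hu w hw hadj
  obtain ⟨a, ha, rfl⟩ := mem_emb.mp hw
  have hj : j = i := adj_false hadj
  subst hj
  have hu' : u ∉ F := fun h => hu (mem_emb'.mpr h)
  obtain ⟨a', ha', hne, hadj'⟩ := hf u hu' a ha (sg_same.mp hadj)
  refine ⟨⟨j, a'⟩, mem_emb'.mpr ha', ?_, sg_same.mpr hadj'⟩
  intro h
  exact hne (by simpa using h)

theorem fort_sl_false {i : ι} {F : Finset (Σ i, V i)} (hne : (sl F i).Nonempty)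
    (hF : Fort (SG false H) F) : Fort (H i) (sl F i) := by
  refine ⟨hne, ?_⟩
  intro u hu w hw hadj
  obtain ⟨⟨j', a'⟩, h1, h2, h3⟩ :=
    hF.2 ⟨i, u⟩ (fun h => hu (mem_sl.mpr h)) ⟨i, w⟩ (mem_sl.mp hw) (sg_same.mpr hadj)
  have hj' : i = j' := adj_false h3
  subst hj'
  refine ⟨a', mem_sl.mpr h1, ?_, sg_same.mp h3⟩
  rintro rfl
  exact h2 rfl

theorem dd_union_iff {W : Finset (Σ i, V i)} :
    DD (SG false H) W ↔ (∀ i, DD (H i) (sl W i)) ∧
      ∀ i j, i ≠ j → FF (H i) (sl W i) ∨ FF (H j) (sl W j) := by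
  constructor
  · intro h
    refine ⟨?_, ?_⟩
    · intro i F hF hf
      have := h _ (emb_subset hF) (fort_emb_false hf)
      rwa [card_emb] at this
    · intro i j hij
      by_contra hcon
      rw [not_or] at hcon
      obtain ⟨h1, h2⟩ := hcon
      unfold FF at h1 h2
      push Not at h1 h2
      obtain ⟨F, hF, hf⟩ := h1
      obtain ⟨F', hF', hf'⟩ := h2
      have h3 := h _ (Finset.union_subset (emb_subset hF) (emb_subset hF'))
        ((fort_emb_false hf).union (fort_emb_false hf'))
      obtain ⟨a, ha⟩ := hf.1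
      obtain ⟨b, hb⟩ := hf'.1
      have h4 := Finset.card_le_one.mp h3 ⟨i, a⟩
        (Finset.mem_union_left _ (mem_emb'.mpr ha)) ⟨j, b⟩
        (Finset.mem_union_right _ (mem_emb'.mpr hb))
      exact hij (congrArg Sigma.fst h4)
  · rintro ⟨h1, h2⟩ F hF hf
    obtain ⟨⟨i, a⟩, ha⟩ := hf.1
    have hin : ∀ y ∈ F, y.1 = i := by
      intro y hy
      by_contra hne
      have hfi := fort_sl_false (i := i) ⟨a, mem_sl.mpr ha⟩ hf
      have hfy := fort_sl_false (i := y.1) ⟨y.2, mem_sl.mpr hy⟩ hf
      rcases h2 _ _ hne with h3 | h3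
      · exact h3 _ (sl_mono hF _) hfy
      · exact h3 _ (sl_mono hF _) hfi
    rw [card_sl hin]
    exact h1 i _ (sl_mono hF _) (fort_sl_false ⟨a, mem_sl.mpr ha⟩ hf)

theorem qq_union_iff {W : Finset (Σ i, V i)} :
    QQ (SG false H) W ↔ DD (SG false H) W ∧
      ∃ i, ∃ a, a ∉ sl W i ∧ ∀ b ∈ sl W i, ¬ (H i).Adj a b := by
  constructor
  · rintro ⟨h1, ⟨i, a⟩, ha, hb⟩
    refine ⟨h1, i, a, fun h => ha (mem_sl.mp h), ?_⟩
    intro b hb' hadj
    exact hb _ (mem_sl.mp hb') (sg_same.mpr hadj)
  · rintro ⟨h1, i, a, ha, hb⟩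
    refine ⟨h1, ⟨i, a⟩, fun h => ha (mem_sl.mpr h), ?_⟩
    rintro ⟨j, b⟩ hb' hadj
    have hj : i = j := adj_false hadj
    subst hj
    exact hb b (mem_sl.mpr hb') (sg_same.mp hadj)

theorem qq_single [Nontrivial ι] [∀ i, Nonempty (V i)] (x : Σ i, V i) :
    QQ (SG false H) {x} := by
  obtain ⟨y, hy⟩ := exists_other (V := V) x.1
  refine ⟨DD.of_card (by simp), y, ?_, ?_⟩
  · rw [Finset.mem_singleton]
    rintro rfl
    exact hy rfl
  · intro b hb hadj
    rw [Finset.mem_singleton] at hb
    subst hb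
    exact hy (adj_false hadj)

/-- `FF` in a one-vertex graph -/
theorem ff_leaf {V : Type} [Subsingleton V] {G : SimpleGraph V} {W : Finset V} :
    FF G W ↔ W = ∅ := by
  constructor
  · intro h
    rw [← Finset.not_nonempty_iff_eq_empty]
    intro hne
    refine h W (Finset.Subset.refl _) ⟨hne, ?_⟩
    intro u hu w hw _
    exact absurd (Subsingleton.elim w u ▸ hw) hu
  · rintro rfl
    exact FF.empty

theorem dd_leaf {V : Type} [Subsingleton V] {G : SimpleGraph V} {W : Finset V} : DD G W :=
  DD.of_card (Finset.card_le_one.mpr (fun a _ b _ => Subsingleton.elim a b))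

variable [Fintype ι]

/-- glue slices -/
def gl (w : ∀ i, Finset (V i)) : Finset (Σ i, V i) := Finset.univ.sigma w

theorem sl_gl {w : ∀ i, Finset (V i)} {i : ι} : sl (gl w) i = w i := by
  ext a
  rw [mem_sl]
  simp [gl]

theorem card_gl {w : ∀ i, Finset (V i)} : (gl w).card = ∑ i, (w i).card := by
  simp [gl, Finset.card_sigma]

theorem gl_sl {W : Finset (Σ i, V i)} : gl (sl W) = W := by
  ext ⟨i, a⟩
  rw [← mem_sl, sl_gl, mem_sl]

theorem card_eq_sum (W : Finset (Σ i, V i)) : W.card = ∑ i, (sl W i).card := by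
  rw [← card_gl, gl_sl]

theorem subset_gl {W : Finset (Σ i, V i)} {w : ∀ i, Finset (V i)} (h : ∀ i, sl W i ⊆ w i) :
    W ⊆ gl w := by
  rintro ⟨i, a⟩ hx
  rw [← mem_sl, sl_gl]
  exact h i (mem_sl.mpr hx)

theorem sl_of_gl_subset {W : Finset (Σ i, V i)} {w : ∀ i, Finset (V i)} (h : gl w ⊆ W) (i : ι) :
    w i ⊆ sl W i := by
  have := sl_mono h i
  rwa [sl_gl] at this

end un

/-! ### at most one leaf -/

section caseB
variable {ι : Type} [Fintype ι] [Nontrivial ι] {V : ι → Type} [∀ i, Fintype (V i)]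
  [∀ i, Nonempty (V i)] {H : ∀ i, SimpleGraph (V i)} {e : ι → ℕ}

/-- the hypotheses on the components -/
structure UH (H : ∀ i, SimpleGraph (V i)) (e : ι → ℕ) : Prop where
  cmp : ∀ i, Cmp (H i) (e i)
  con : ∀ i, ¬ Subsingleton (V i) → ∀ W, DD (H i) W → FF (H i) W

theorem UH.dd_iff (h : UH H e) {W : Finset (Σ i, V i)} :
    DD (SG false H) W ↔ (∀ i, DD (H i) (sl W i)) ∧
      ∀ i j, Subsingleton (V i) → Subsingleton (V j) → i ≠ j → sl W i = ∅ ∨ sl W j = ∅ := by
  rw [dd_union_iff]
  constructor
  · rintro ⟨h1, h2⟩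
    refine ⟨h1, ?_⟩
    intro i j hi hj hij
    haveI := hi
    haveI := hj
    rcases h2 i j hij with h3 | h3
    · exact Or.inl (ff_leaf.mp h3)
    · exact Or.inr (ff_leaf.mp h3)
  · rintro ⟨h1, h2⟩
    refine ⟨h1, ?_⟩
    intro i j hij
    by_cases hi : Subsingleton (V i)
    · by_cases hj : Subsingleton (V j)
      · haveI := hi
        haveI := hj
        rcases h2 i j hi hj hij with h3 | h3
        · exact Or.inl (ff_leaf.mpr h3)
        · exact Or.inr (ff_leaf.mpr h3)
      · exact Or.inr (h.con j hj _ (h1 j))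
    · exact Or.inl (h.con i hi _ (h1 i))

theorem UH.pos (h : UH H e) (i : ι) : 1 ≤ e i := by
  obtain ⟨w, _, hc⟩ := (h.cmp i).qq_ex
  omega

variable (hB : ∀ i j, Subsingleton (V i) → Subsingleton (V j) → i = j)
include hB

theorem UH.dd_iffB (h : UH H e) {W : Finset (Σ i, V i)} :
    DD (SG false H) W ↔ ∀ i, DD (H i) (sl W i) := by
  rw [h.dd_iff]
  constructor
  · exact fun h => h.1
  · intro h1
    exact ⟨h1, fun i j hi hj hij => absurd (hB i j hi hj) hij⟩

theorem UH.qq_iffB (h : UH H e) {W : Finset (Σ i, V i)} :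
    QQ (SG false H) W ↔ (∀ i, DD (H i) (sl W i)) ∧ ∃ i, QQ (H i) (sl W i) := by
  rw [qq_union_iff, h.dd_iffB hB]
  constructor
  · rintro ⟨h1, i, a, ha, hb⟩
    exact ⟨h1, i, h1 i, a, ha, hb⟩
  · rintro ⟨h1, i, _, a, ha, hb⟩
    exact ⟨h1, i, a, ha, hb⟩

theorem UH.ddB (h : UH H e) {w : ∀ i, Finset (V i)} (hw : ∀ i, DD (H i) (w i)) :
    DD (SG false H) (gl w) := by
  rw [h.dd_iffB hB]
  intro i
  rw [sl_gl]
  exact hw i

theorem UH.prtB (h : UH H e) : Prt (SG false H) (∑ i, e i) := by
  refine ⟨?_, ?_, ?_⟩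
  · intro W hW
    rw [h.dd_iffB hB] at hW
    rw [card_eq_sum]
    exact Finset.sum_le_sum (fun i _ => (h.cmp i).dd_le _ (hW i))
  · intro W hW
    rw [h.qq_iffB hB] at hW
    obtain ⟨h1, i, h2⟩ := hW
    rw [card_eq_sum]
    exact Finset.sum_lt_sum (fun j _ => (h.cmp j).dd_le _ (h1 j))
      ⟨i, Finset.mem_univ i, (h.cmp i).qq_le _ h2⟩
  · obtain ⟨i0, _⟩ := exists_pair_ne ι
    choose M hM hMc using fun i => (h.cmp i).dd_ex
    obtain ⟨q, hq, hqc⟩ := (h.cmp i0).qq_ex
    refine ⟨gl (Function.update M i0 q), ?_, ?_⟩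
    · rw [h.qq_iffB hB]
      refine ⟨?_, i0, ?_⟩
      · intro i
        rw [sl_gl]
        by_cases hi : i = i0
        · subst hi
          rw [Function.update_self]
          exact hq.1
        · rw [Function.update_of_ne hi]
          exact hM i
      · rw [sl_gl, Function.update_self]
        exact hq
    · rw [card_gl, ← Finset.add_sum_erase _ _ (Finset.mem_univ i0),
        ← Finset.add_sum_erase _ e (Finset.mem_univ i0), Function.update_self]
      have : ∑ x ∈ Finset.univ.erase i0, (Function.update M i0 q x).card =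
          ∑ x ∈ Finset.univ.erase i0, e x := by
        apply Finset.sum_congr rfl
        intro x hx
        rw [Function.update_of_ne (Finset.ne_of_mem_erase hx)]
        exact hMc x
      rw [this]
      omega

theorem UH.ddexB (h : UH H e) : ∃ W, DD (SG false H) W ∧ W.card = ∑ i, e i := by
  choose M hM hMc using fun i => (h.cmp i).dd_ex
  refine ⟨gl M, h.ddB hB hM, ?_⟩
  rw [card_gl]
  exact Finset.sum_congr rfl (fun i _ => hMc i)

theorem UH.homB (h : UH H e) (hh : ∀ i, HomD (H i) (e i) ∧ HomQ (H i) (e i)) :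
    HomQ (SG false H) (∑ i, e i) ∧ HomN (SG false H) (∑ i, e i) := by
  constructor
  · intro W hW
    rw [h.qq_iffB hB] at hW
    obtain ⟨h1, i0, h2⟩ := hW
    choose M hM1 hM2 hM3 using fun i => (hh i).1 _ (h1 i)
    obtain ⟨q, hq1, hq2, hq3⟩ := (hh i0).2 _ h2
    refine ⟨gl (Function.update M i0 q), ?_, ?_, ?_⟩
    · apply subset_gl
      intro i
      by_cases hi : i = i0
      · subst hi
        rw [Function.update_self]
        exact hq1
      · rw [Function.update_of_ne hi]
        exact hM1 i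
    · rw [h.qq_iffB hB]
      refine ⟨?_, i0, ?_⟩
      · intro i
        rw [sl_gl]
        by_cases hi : i = i0
        · subst hi
          rw [Function.update_self]
          exact hq2.1
        · rw [Function.update_of_ne hi]
          exact hM2 i
      · rw [sl_gl, Function.update_self]
        exact hq2
    · rw [card_gl, ← Finset.add_sum_erase _ _ (Finset.mem_univ i0),
        ← Finset.add_sum_erase _ e (Finset.mem_univ i0), Function.update_self]
      have : ∑ x ∈ Finset.univ.erase i0, (Function.update M i0 q x).card =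
          ∑ x ∈ Finset.univ.erase i0, e x := by
        apply Finset.sum_congr rfl
        intro x hx
        rw [Function.update_of_ne (Finset.ne_of_mem_erase hx)]
        exact hM3 x
      rw [this]
      omega
  · intro W hW _
    rw [h.dd_iffB hB] at hW
    choose M hM1 hM2 hM3 using fun i => (hh i).1 _ (hW i)
    refine ⟨gl M, subset_gl hM1, h.ddB hB hM2, ?_⟩
    rw [card_gl]
    exact Finset.sum_congr rfl (fun i _ => hM3 i)

theorem UH.convB (h : UH H e) (h1 : HomQ2 (SG false H) (∑ i, e i))
    (h2 : HomN (SG false H) (∑ i, e i)) (i : ι) : HomD (H i) (e i) ∧ HomQ (H i) (e i) := by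
  choose M hM hMc using fun i => (h.cmp i).dd_ex
  have hMn : ∀ j, ¬ QQ (H j) (M j) := by
    intro j hq
    have := (h.cmp j).qq_le _ hq
    rw [hMc j] at this
    omega
  constructor
  · intro W hW
    obtain ⟨W1, hs, hd, hmax⟩ := exists_max (P := DD (H i)) hW
    have hnq : ¬ QQ (H i) W1 := by
      intro hq
      obtain ⟨W2, h3, h4⟩ := (h.cmp i).qq_ext _ hq
      have h5 := hmax W2 h3.1 h4
      rw [h5] at h3
      exact h3.2 (Finset.Subset.refl _)
    have hd' : ∀ j, DD (H j) (Function.update M i W1 j) := by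
      intro j
      by_cases hj : j = i
      · subst hj
        rw [Function.update_self]
        exact hd
      · rw [Function.update_of_ne hj]
        exact hM j
    have hnq' : ¬ QQ (SG false H) (gl (Function.update M i W1)) := by
      rw [h.qq_iffB hB]
      rintro ⟨_, j, hq⟩
      rw [sl_gl] at hq
      by_cases hj : j = i
      · subst hj
        rw [Function.update_self] at hq
        exact hnq hq
      · rw [Function.update_of_ne hj] at hq
        exact hMn j hq
    obtain ⟨W', h3, h4, h5⟩ := h2 _ (h.ddB hB hd') hnq'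
    rw [h.dd_iffB hB] at h4
    rw [card_eq_sum] at h5
    have h6 := (Finset.sum_eq_sum_iff_of_le
      (fun j _ => (h.cmp j).dd_le _ (h4 j))).mp h5 i (Finset.mem_univ i)
    have h7 := sl_of_gl_subset h3 i
    rw [Function.update_self] at h7
    have h8 := hmax _ h7 (h4 i)
    refine ⟨W1, hs, hd, ?_⟩
    rw [← h8, h6]
  · intro W hW
    rcases Finset.eq_empty_or_nonempty W with rfl | hne
    · obtain ⟨q, hq, hqc⟩ := (h.cmp i).qq_ex
      exact ⟨q, Finset.empty_subset _, hq, hqc⟩
    · have hq' : QQ (SG false H) (gl (Function.update M i W)) := by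
        rw [h.qq_iffB hB]
        refine ⟨?_, i, ?_⟩
        · intro j
          rw [sl_gl]
          by_cases hj : j = i
          · subst hj
            rw [Function.update_self]
            exact hW.1
          · rw [Function.update_of_ne hj]
            exact hM j
        · rw [sl_gl, Function.update_self]
          exact hW
      have hc : 2 ≤ (gl (Function.update M i W)).card := by
        obtain ⟨j, hj⟩ := exists_ne i
        rw [card_gl, ← Finset.add_sum_erase _ _ (Finset.mem_univ i), Function.update_self]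
        have h3 : (Function.update M i W j).card ≤
            ∑ x ∈ Finset.univ.erase i, (Function.update M i W x).card :=
          Finset.single_le_sum (f := fun x => (Function.update M i W x).card)
            (fun _ _ => Nat.zero_le _) (Finset.mem_erase.mpr ⟨hj, Finset.mem_univ j⟩)
        rw [Function.update_of_ne hj, hMc j] at h3
        have h4 := h.pos j
        have h5 := Finset.card_pos.mpr hne
        omega
      obtain ⟨W', h3, h4, h5⟩ := h1 _ hc hq'
      rw [h.qq_iffB hB] at h4
      obtain ⟨h6, k, h7⟩ := h4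
      have h8 : ∀ j, j ≠ i → (sl W' j).card = e j := by
        intro j hj
        apply le_antisymm ((h.cmp j).dd_le _ (h6 j))
        have h9 := sl_of_gl_subset h3 j
        rw [Function.update_of_ne hj] at h9
        rw [← hMc j]
        exact Finset.card_le_card h9
      have hk : k = i := by
        by_contra hk
        have := (h.cmp k).qq_le _ h7
        rw [h8 k hk] at this
        omega
      subst hk
      have h9 := sl_of_gl_subset h3 k
      rw [Function.update_self] at h9
      refine ⟨sl W' k, h9, h7, ?_⟩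
      rw [card_eq_sum, ← Finset.add_sum_erase _ _ (Finset.mem_univ k),
        ← Finset.add_sum_erase _ e (Finset.mem_univ k)] at h5
      have h10 : ∑ x ∈ Finset.univ.erase k, (sl W' x).card =
          ∑ x ∈ Finset.univ.erase k, e x := by
        apply Finset.sum_congr rfl
        intro x hx
        exact h8 x (Finset.ne_of_mem_erase hx)
      rw [h10] at h5
      omega

end caseB

end ZF36
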