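import Mathlib
import Pool.Agent.Helper36.ZF.Union

/-! # The recursion step at a union with at least two isolated vertices -/

namespace ZF36

open Classical

set_option linter.unusedSectionVars false
set_option linter.style.haveILetI false

section caseA
variable {ι : Type} [Fintype ι] [Nontrivial ι] {V : ι → Type} [∀ i, Fintype (V i)]
  [∀ i, Nonempty (V i)] {H : ∀ i, SimpleGraph (V i)} {e : ι → ℕ}

theorem leaf_sum_le {w : ∀ i, Finset (V i)}
    (h : ∀ i j, Subsingleton (V i) → Subsingleton (V j) → i ≠ j → w i = ∅ ∨ w j = ∅) :
    (∑ i, if Subsingleton (V i) then (w i).card else 0) ≤ 1 := by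
  by_cases hex : ∃ l, Subsingleton (V l) ∧ w l ≠ ∅
  · obtain ⟨l, hl, hne⟩ := hex
    rw [Finset.sum_eq_single l]
    · rw [if_pos hl]
      haveI := hl
      exact Finset.card_le_one.mpr (fun a _ b _ => Subsingleton.elim a b)
    · intro j _ hj
      by_cases hs : Subsingleton (V j)
      · rw [if_pos hs]
        rcases h j l hs hl hj with h1 | h1
        · rw [h1]; rfl
        · exact absurd h1 hne
      · rw [if_neg hs]
    · intro hn
      exact absurd (Finset.mem_univ l) hn
  · push Not at hex
    rw [Finset.sum_eq_zero]
    · exact Nat.zero_le _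
    · intro j _
      by_cases hs : Subsingleton (V j)
      · rw [if_pos hs, hex j hs]; rfl
      · rw [if_neg hs]

theorem card_split (w : ∀ i, Finset (V i)) :
    ∑ i, (w i).card = (∑ i, if Subsingleton (V i) then 0 else (w i).card) +
      ∑ i, if Subsingleton (V i) then (w i).card else 0 := by
  rw [← Finset.sum_add_distrib]
  apply Finset.sum_congr rfl
  intro i _
  by_cases hs : Subsingleton (V i)
  · rw [if_pos hs, if_pos hs, zero_add]
  · rw [if_neg hs, if_neg hs, add_zero]

/-- non-leaf slices `w` and the leaf `l` -/
noncomputable def put (w : ∀ i, Finset (V i)) (l : ι) : ∀ i, Finset (V i) :=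
  fun i => if Subsingleton (V i) then (if i = l then Finset.univ else ∅) else w i

theorem put_card (w : ∀ i, Finset (V i)) {l : ι} (hl : Subsingleton (V l)) :
    (gl (put w l)).card = (∑ i, if Subsingleton (V i) then 0 else (w i).card) + 1 := by
  rw [card_gl, card_split]
  congr 1
  · apply Finset.sum_congr rfl
    intro i _
    by_cases hs : Subsingleton (V i)
    · rw [if_pos hs, if_pos hs]
    · rw [if_neg hs, if_neg hs]
      unfold put
      rw [if_neg hs]
  · rw [Finset.sum_eq_single l]
    · rw [if_pos hl]
      unfold put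
      rw [if_pos hl, if_pos rfl]
      haveI := hl
      apply le_antisymm
      · exact Finset.card_le_one.mpr (fun a _ b _ => Subsingleton.elim a b)
      · exact Finset.card_pos.mpr Finset.univ_nonempty
    · intro j _ hj
      by_cases hs : Subsingleton (V j)
      · rw [if_pos hs]
        unfold put
        rw [if_pos hs, if_neg hj]
        rfl
      · rw [if_neg hs]
    · intro hn
      exact absurd (Finset.mem_univ l) hn

theorem UH.dd_put (h : UH H e) {w : ∀ i, Finset (V i)}
    (hw : ∀ i, ¬ Subsingleton (V i) → DD (H i) (w i)) (l : ι) :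
    DD (SG false H) (gl (put w l)) := by
  rw [h.dd_iff]
  constructor
  · intro i
    rw [sl_gl]
    by_cases hs : Subsingleton (V i)
    · haveI := hs
      exact dd_leaf
    · unfold put
      rw [if_neg hs]
      exact hw i hs
  · intro i j hi hj hij
    rw [sl_gl, sl_gl]
    unfold put
    rw [if_pos hi, if_pos hj]
    by_cases hil : i = l
    · right
      rw [if_neg (fun e => hij (hil.trans e.symm))]
    · left
      rw [if_neg hil]

variable {l1 l2 : ι} (hl1 : Subsingleton (V l1)) (hl2 : Subsingleton (V l2)) (hne : l1 ≠ l2)
include hl1 hl2 hne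

theorem UH.qq_iffA (h : UH H e) {W : Finset (Σ i, V i)} :
    QQ (SG false H) W ↔ DD (SG false H) W := by
  constructor
  · exact fun h => h.1
  · intro h1
    have h2 := (h.dd_iff.mp h1).2 l1 l2 hl1 hl2 hne
    rw [qq_union_iff]
    refine ⟨h1, ?_⟩
    rcases h2 with h3 | h3
    · refine ⟨l1, Classical.arbitrary _, ?_, ?_⟩
      · rw [h3]; exact Finset.notMem_empty _
      · intro b hb
        rw [h3] at hb
        exact absurd hb (Finset.notMem_empty _)
    · refine ⟨l2, Classical.arbitrary _, ?_, ?_⟩
      · rw [h3]; exact Finset.notMem_empty _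
      · intro b hb
        rw [h3] at hb
        exact absurd hb (Finset.notMem_empty _)

theorem UH.card_leA (h : UH H e) {W : Finset (Σ i, V i)} (hW : DD (SG false H) W) :
    W.card ≤ (∑ i, if Subsingleton (V i) then 0 else e i) + 1 := by
  rw [h.dd_iff] at hW
  rw [card_eq_sum, card_split]
  have h1 := leaf_sum_le hW.2
  have h2 : (∑ i, if Subsingleton (V i) then 0 else (sl W i).card) ≤
      ∑ i, if Subsingleton (V i) then 0 else e i := by
    apply Finset.sum_le_sum
    intro i _
    by_cases hs : Subsingleton (V i)
    · rw [if_pos hs, if_pos hs]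
    · rw [if_neg hs, if_neg hs]
      exact (h.cmp i).dd_le _ (hW.1 i)
  omega

theorem UH.prtA (h : UH H e) :
    Prt (SG false H) ((∑ i, if Subsingleton (V i) then 0 else e i) + 2) := by
  refine ⟨?_, ?_, ?_⟩
  · intro W hW
    have := h.card_leA hl1 hl2 hne hW
    omega
  · intro W hW
    have := h.card_leA hl1 hl2 hne hW.1
    omega
  · choose M hM hMc using fun i => (h.cmp i).dd_ex
    refine ⟨gl (put M l1), ?_, ?_⟩
    · rw [h.qq_iffA hl1 hl2 hne]
      exact h.dd_put (fun i _ => hM i) l1
    · rw [put_card M hl1]
      have : (∑ i, if Subsingleton (V i) then 0 else (M i).card) =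
          ∑ i, if Subsingleton (V i) then 0 else e i := by
        apply Finset.sum_congr rfl
        intro i _
        rw [hMc i]
      omega

theorem UH.homA (h : UH H e) (hh : ∀ i, ¬ Subsingleton (V i) → HomD (H i) (e i)) :
    HomQ (SG false H) ((∑ i, if Subsingleton (V i) then 0 else e i) + 2) ∧
      HomN (SG false H) ((∑ i, if Subsingleton (V i) then 0 else e i) + 2) := by
  constructor
  · intro W hW
    have hW' := h.dd_iff.mp hW.1
    have hex : ∀ i, ∃ w, sl W i ⊆ w ∧ DD (H i) w ∧ (¬ Subsingleton (V i) → w.card = e i) := by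
      intro i
      by_cases hs : Subsingleton (V i)
      · exact ⟨sl W i, Finset.Subset.refl _, hW'.1 i, fun hn => absurd hs hn⟩
      · obtain ⟨w, h1, h2, h3⟩ := hh i hs _ (hW'.1 i)
        exact ⟨w, h1, h2, fun _ => h3⟩
    choose w hw1 hw2 hw3 using hex
    have hl : ∃ l, Subsingleton (V l) ∧ ∀ j, Subsingleton (V j) → j ≠ l → sl W j = ∅ := by
      by_cases hex : ∃ l, Subsingleton (V l) ∧ sl W l ≠ ∅
      · obtain ⟨l, hl, hne'⟩ := hex
        refine ⟨l, hl, ?_⟩
        intro j hj hjl
        rcases hW'.2 j l hj hl hjl with h1 | h1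
        · exact h1
        · exact absurd h1 hne'
      · push Not at hex
        exact ⟨l1, hl1, fun j hj _ => hex j hj⟩
    obtain ⟨l, hl, hle⟩ := hl
    refine ⟨gl (put w l), ?_, ?_, ?_⟩
    · apply subset_gl
      intro i
      unfold put
      by_cases hs : Subsingleton (V i)
      · rw [if_pos hs]
        by_cases hil : i = l
        · rw [if_pos hil]
          exact Finset.subset_univ _
        · rw [if_neg hil, hle i hs hil]
      · rw [if_neg hs]
        exact hw1 i
    · rw [h.qq_iffA hl1 hl2 hne]
      exact h.dd_put (fun i _ => hw2 i) l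
    · rw [put_card w hl]
      have : (∑ i, if Subsingleton (V i) then 0 else (w i).card) =
          ∑ i, if Subsingleton (V i) then 0 else e i := by
        apply Finset.sum_congr rfl
        intro i _
        by_cases hs : Subsingleton (V i)
        · rw [if_pos hs, if_pos hs]
        · rw [if_neg hs, if_neg hs, hw3 i hs]
      omega
  · intro W hW hn
    exact absurd ((h.qq_iffA hl1 hl2 hne).mpr hW) hn

theorem UH.convA (h : UH H e)
    (hQ : HomQ2 (SG false H) ((∑ i, if Subsingleton (V i) then 0 else e i) + 2)) (i : ι)
    (hi : ¬ Subsingleton (V i)) : HomD (H i) (e i) := by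
  choose M hM hMc using fun i => (h.cmp i).dd_ex
  intro W hW
  rcases Finset.eq_empty_or_nonempty W with rfl | hWne
  · exact ⟨M i, Finset.empty_subset _, hM i, hMc i⟩
  · have hd : DD (SG false H) (gl (put (Function.update M i W) l1)) := by
      apply h.dd_put
      intro j _
      by_cases hj : j = i
      · subst hj
        rw [Function.update_self]
        exact hW
      · rw [Function.update_of_ne hj]
        exact hM j
    have hc : 2 ≤ (gl (put (Function.update M i W) l1)).card := by
      rw [put_card _ hl1]
      have h3 : (if Subsingleton (V i) then 0 else (Function.update M i W i).card) ≤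
          ∑ x, if Subsingleton (V x) then 0 else (Function.update M i W x).card :=
        Finset.single_le_sum
          (f := fun x => if Subsingleton (V x) then 0 else (Function.update M i W x).card)
          (fun _ _ => Nat.zero_le _) (Finset.mem_univ i)
      rw [if_neg hi, Function.update_self] at h3
      have h5 := Finset.card_pos.mpr hWne
      omega
    obtain ⟨W', h1, h2, h3⟩ := hQ _ hc ((h.qq_iffA hl1 hl2 hne).mpr hd)
    have h4 := h.dd_iff.mp h2.1
    rw [card_eq_sum, card_split] at h3
    have h5 := leaf_sum_le h4.2
    have h6 : ∀ j ∈ Finset.univ, (if Subsingleton (V j) then 0 else (sl W' j).card) ≤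
        if Subsingleton (V j) then 0 else e j := by
      intro j _
      by_cases hs : Subsingleton (V j)
      · rw [if_pos hs, if_pos hs]
      · rw [if_neg hs, if_neg hs]
        exact (h.cmp j).dd_le _ (h4.1 j)
    have h7 := Finset.sum_le_sum h6
    have h8 := (Finset.sum_eq_sum_iff_of_le h6).mp (by omega) i (Finset.mem_univ i)
    rw [if_neg hi, if_neg hi] at h8
    have h9 := sl_of_gl_subset h1 i
    unfold put at h9
    rw [if_neg hi, Function.update_self] at h9
    exact ⟨sl W' i, h9, h4.1 i, h8⟩

end caseA

end ZF36
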