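import Mathlib
import Pool.Agent.Helper36.ZF.UnionA

/-! # Well-forced cographs -/

namespace ZF36

open Classical

set_option linter.unusedSectionVars false
set_option linter.style.haveILetI false

namespace Cotree

instance instNE : (t : Cotree) → Nonempty t.Vt
  | leaf => ⟨()⟩
  | node _ c => ⟨⟨0, (instNE (c 0)).some⟩⟩

theorem sub_leaf : Subsingleton (leaf).Vt := inferInstanceAs (Subsingleton Unit)

theorem sub_iff (t : Cotree) : t.isLeaf = true ↔ Subsingleton t.Vt := by
  cases t with
  | leaf => exact ⟨fun _ => sub_leaf, fun _ => rfl⟩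
  | node k c =>
    constructor
    · intro h
      exact absurd h (by simp [isLeaf])
    · intro h
      exfalso
      have h1 : (⟨0, (instNE (c 0)).some⟩ : Σ i, (c i).Vt) = ⟨1, (instNE (c 1)).some⟩ :=
        h.elim _ _
      have h2 := congrArg Sigma.fst h1
      exact absurd h2 (by simp)

theorem nsub_iff (t : Cotree) : t.isLeaf = false ↔ ¬ Subsingleton t.Vt := by
  rw [← sub_iff]
  simp

theorem rk_leaf (b : Bool) : rk b leaf = 1 := by
  cases b <;> rfl

theorem rk_true (k : ℕ) (c : Fin (k + 2) → Cotree) :
    rk true (node k c) = Finset.univ.sup (fun i => rk false (c i)) := rfl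

theorem rk_false (k : ℕ) (c : Fin (k + 2) → Cotree) :
    rk false (node k c) =
      (∑ i, if (c i).isLeaf = true then 0 else rk true (c i)) + min 2 (nl c) := rfl

theorem graph_true (k : ℕ) (c : Fin (k + 2) → Cotree) :
    graph true (node k c) = SG true (fun i => graph false (c i)) := rfl

theorem graph_false (k : ℕ) (c : Fin (k + 2) → Cotree) :
    graph false (node k c) = SG false (fun i => graph true (c i)) := rfl

theorem cmp_leaf (b : Bool) : Cmp (graph b leaf) 1 := by
  haveI : Subsingleton (leaf).Vt := sub_leaf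
  have hq : QQ (graph b leaf) ∅ := by
    refine ⟨FF.empty.dd, (), Finset.notMem_empty _, ?_⟩
    intro b hb
    exact absurd hb (Finset.notMem_empty _)
  have hc : (Finset.univ : Finset (leaf).Vt).card = 1 := rfl
  refine ⟨?_, ?_, ⟨Finset.univ, dd_leaf, hc⟩, ⟨∅, hq, rfl⟩, ?_⟩
  · intro W _
    exact Finset.card_le_one.mpr (fun a _ b _ => Subsingleton.elim a b)
  · intro W hW
    rw [qq_leaf hW]
    rfl
  · intro W hW
    refine ⟨Finset.univ, ?_, dd_leaf⟩
    rw [qq_leaf hW]
    exact Finset.empty_ssubset.mpr Finset.univ_nonempty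

/-- everything the induction proves -/
structure All (t : Cotree) : Prop where
  A : Cmp (graph true t) (rk true t)
  B : Prt (graph false t) (rk false t)
  C : t.isLeaf = false → ∀ W, DD (graph true t) W → FF (graph true t) W
  D : HomD (graph true t) (rk true t) ↔ good .wf t
  E : (HomD (graph true t) (rk true t) ∧ HomQ (graph true t) (rk true t)) ↔ good .q t
  F : good .ok t → HomQ (graph false t) (rk false t) ∧ HomN (graph false t) (rk false t)
  G : t.isLeaf = false → HomQ2 (graph false t) (rk false t) →
    HomN (graph false t) (rk false t) → good .ok t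
  H : t.isLeaf = false → rk false t = 2 → t.isStar = false →
    ∃ W, DD (graph false t) W ∧ W.card = 2
  I : t.isStar = true → ∀ W, DD (graph false t) W → W.card ≤ 1
  J : t.isLeaf = false → ∀ x, QQ (graph false t) {x}

theorem homQ_leaf (b : Bool) : HomQ (graph b leaf) 1 := by
  haveI : Subsingleton (leaf).Vt := sub_leaf
  intro W hW
  obtain ⟨q, hq, hc⟩ := (cmp_leaf b).qq_ex
  exact ⟨q, by rw [qq_leaf hW]; exact Finset.empty_subset _, hq, hc⟩

theorem homD_leaf (b : Bool) : HomD (graph b leaf) 1 := by
  haveI : Subsingleton (leaf).Vt := sub_leaf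
  intro W _
  exact ⟨Finset.univ, Finset.subset_univ _, dd_leaf, rfl⟩

theorem all_leaf : All leaf := by
  refine ⟨cmp_leaf true, (cmp_leaf false).prt, ?_, ?_, ?_, ?_, ?_, ?_, ?_, ?_⟩
  · intro h
    exact absurd h (by simp [isLeaf])
  · exact ⟨fun _ => trivial, fun _ => homD_leaf true⟩
  · exact ⟨fun _ => trivial, fun _ => ⟨homD_leaf true, homQ_leaf true⟩⟩
  · intro _
    exact ⟨homQ_leaf false, fun W hW _ => homD_leaf false W hW⟩
  · intro h
    exact absurd h (by simp [isLeaf])
  · intro h
    exact absurd h (by simp [isLeaf])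
  · intro h
    exact absurd h (by simp [isStar])
  · intro h
    exact absurd h (by simp [isLeaf])

theorem isStar_isLeaf {t : Cotree} (h : t.isStar = true) : t.isLeaf = false := by
  cases t with
  | leaf => exact absurd h (by simp [isStar])
  | node k c => rfl

section node
variable {k : ℕ} {c : Fin (k + 2) → Cotree}

theorem jh_node (ih : ∀ i, All (c i)) :
    JH (fun i => graph false (c i)) (fun i => rk false (c i)) (fun i => good .ok (c i))
      (fun i => (c i).isStar = true) where
  prt := fun i => (ih i).B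
  h1 := fun i => (ih i).F
  h2 := fun i hi => (ih i).G ((nsub_iff _).mpr hi)
  h3 := fun i hi => by
    have h1 := (sub_iff _).mpr hi
    cases hc : c i with
    | leaf => exact trivial
    | node k' c' =>
      rw [hc] at h1
      exact absurd h1 (by simp [isLeaf])
  h4 := fun i hi => by
    cases hc : c i with
    | leaf => exact trivial
    | node k' c' =>
      rw [hc] at hi
      intro j hj
      have h1 : ∀ i, (c' i).isLeaf = true := by
        simpa [isStar] using hi
      rw [h1 j] at hj
      exact absurd hj (by simp)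
  h5 := fun i hi => (ih i).J ((nsub_iff _).mpr hi)
  h6 := fun i hi h2 h3 => (ih i).H ((nsub_iff _).mpr hi) h2 (by simpa using h3)
  h7 := fun i hi => (ih i).I hi
  h8 := fun i hi => (nsub_iff _).mp (isStar_isLeaf hi)

theorem uh_node (ih : ∀ i, All (c i)) :
    UH (fun i => graph true (c i)) (fun i => rk true (c i)) where
  cmp := fun i => (ih i).A
  con := fun i hi => (ih i).C ((nsub_iff _).mpr hi)

theorem sum_eq (f : Fin (k + 2) → ℕ) :
    (∑ i, if (c i).isLeaf = true then 0 else f i) =
      ∑ i, if Subsingleton (c i).Vt then 0 else f i := by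
  apply Finset.sum_congr rfl
  intro i _
  by_cases hi : Subsingleton (c i).Vt
  · rw [if_pos hi, if_pos ((sub_iff _).mpr hi)]
  · rw [if_neg hi, if_neg (fun h => hi ((sub_iff _).mp h))]

theorem two_leaves (h : 2 ≤ nl c) :
    ∃ l1 l2, Subsingleton (c l1).Vt ∧ Subsingleton (c l2).Vt ∧ l1 ≠ l2 := by
  unfold nl at h
  obtain ⟨a, ha, b, hb, hab⟩ := Finset.one_lt_card.mp h
  simp only [Finset.mem_filter, Finset.mem_univ, true_and] at ha hb
  exact ⟨a, b, (sub_iff _).mp ha, (sub_iff _).mp hb, hab⟩

theorem one_leaf (h : ¬ 2 ≤ nl c) (i j : Fin (k + 2)) (hi : Subsingleton (c i).Vt)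
    (hj : Subsingleton (c j).Vt) : i = j := by
  unfold nl at h
  have h1 : (Finset.univ.filter (fun i => (c i).isLeaf = true)).card ≤ 1 := by omega
  exact Finset.card_le_one.mp h1 i (by simpa using (sub_iff _).mpr hi) j
    (by simpa using (sub_iff _).mpr hj)

theorem rk_falseA (h : 2 ≤ nl c) : rk false (node k c) =
    (∑ i, if Subsingleton (c i).Vt then 0 else rk true (c i)) + 2 := by
  rw [rk_false, sum_eq, min_eq_left h]

theorem rk_falseB (h : ¬ 2 ≤ nl c) : rk false (node k c) = ∑ i, rk true (c i) := by
  rw [rk_false, min_eq_right (by omega : nl c ≤ 2)]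
  unfold nl
  rw [Finset.card_filter, ← Finset.sum_add_distrib]
  apply Finset.sum_congr rfl
  intro i _
  by_cases hi : (c i).isLeaf = true
  · rw [if_pos hi, if_pos hi]
    cases hc : c i with
    | leaf => rfl
    | node k' c' =>
      rw [hc] at hi
      exact absurd hi (by simp [isLeaf])
  · rw [if_neg hi, if_neg hi, add_zero]

theorem good_okA (h : 2 ≤ nl c) : good .ok (node k c) ↔
    ∀ i, (c i).isLeaf = false → good .wf (c i) := by
  constructor
  · intro hg i hi
    have := hg i hi
    rwa [if_pos h] at this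
  · intro hg i hi
    rw [if_pos h]
    exact hg i hi

theorem good_okB (h : ¬ 2 ≤ nl c) : good .ok (node k c) ↔
    ∀ i, (c i).isLeaf = false → good .q (c i) := by
  constructor
  · intro hg i hi
    have := hg i hi
    rwa [if_neg h] at this
  · intro hg i hi
    rw [if_neg h]
    exact hg i hi

theorem good_q_wf {t : Cotree} (h : good .q t) : good .wf t := by
  cases t with
  | leaf => trivial
  | node k c => exact ⟨h.1, Or.inl h.2⟩

theorem all_node (ih : ∀ i, All (c i)) : All (node k c) := by
  have hj := jh_node ih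
  have hu := uh_node ih
  have hwf : HomD (graph true (node k c)) (rk true (node k c)) ↔ good .wf (node k c) := by
    constructor
    · intro hh
      obtain ⟨h1, h2⟩ := hj.wf_iff.mp hh
      refine ⟨h1, ?_⟩
      rcases h2 with h2 | h2
      · exact Or.inl (fun i hi => (sub_iff _).mpr (h2 i hi))
      · exact Or.inr h2
    · rintro ⟨h1, h2⟩
      refine hj.wf_iff.mpr ⟨h1, ?_⟩
      rcases h2 with h2 | h2
      · exact Or.inl (fun i hi => (sub_iff _).mp (h2 i hi))
      · exact Or.inr h2
  refine ⟨cmp_join (fun i => (ih i).B), ?_, ?_, hwf, ?_, ?_, ?_, ?_, ?_, ?_⟩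
  · by_cases h2 : 2 ≤ nl c
    · obtain ⟨l1, l2, hl1, hl2, hne⟩ := two_leaves h2
      rw [rk_falseA h2]
      exact hu.prtA hl1 hl2 hne
    · rw [rk_falseB h2]
      exact hu.prtB (one_leaf h2)
  · intro _ W hW
    exact ff_iff_dd.mpr hW
  · rw [hwf]
    constructor
    · rintro ⟨h1, h2⟩
      refine ⟨h1.1, ?_⟩
      intro i hi
      exact (sub_iff _).mpr ((hj.q_iff h1.1).mp h2 i hi)
    · intro h1
      refine ⟨good_q_wf h1, (hj.q_iff h1.1).mpr ?_⟩
      intro i hi
      exact (sub_iff _).mp (h1.2 i hi)
  · intro hg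
    by_cases h2 : 2 ≤ nl c
    · obtain ⟨l1, l2, hl1, hl2, hne⟩ := two_leaves h2
      rw [rk_falseA h2]
      rw [good_okA h2] at hg
      refine hu.homA hl1 hl2 hne ?_
      intro i hi
      exact (ih i).D.mpr (hg i ((nsub_iff _).mpr hi))
    · rw [rk_falseB h2]
      rw [good_okB h2] at hg
      refine hu.homB (one_leaf h2) ?_
      intro i
      apply (ih i).E.mpr
      cases hi : (c i).isLeaf with
      | true =>
        cases hc : c i with
        | leaf => trivial
        | node k' c' =>
          rw [hc] at hi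
          exact absurd hi (by simp [isLeaf])
      | false => exact hg i hi
  · intro _ hQ hN
    by_cases h2 : 2 ≤ nl c
    · obtain ⟨l1, l2, hl1, hl2, hne⟩ := two_leaves h2
      rw [rk_falseA h2] at hQ
      rw [good_okA h2]
      intro i hi
      exact (ih i).D.mp (UH.convA (V := fun i => (c i).Vt) (l1 := l1) (l2 := l2) hl1 hl2 hne hu hQ i
        ((nsub_iff _).mp hi))
    · rw [rk_falseB h2] at hQ hN
      rw [good_okB h2]
      intro i _
      exact (ih i).E.mp (hu.convB (one_leaf h2) hQ hN i)
  · intro _ hrk hst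
    by_cases h2 : 2 ≤ nl c
    · exfalso
      rw [rk_falseA h2] at hrk
      have h3 : ¬ ∀ i, (c i).isLeaf = true := by
        simpa [isStar] using hst
      push Not at h3
      obtain ⟨i, hi⟩ := h3
      have hi' : ¬ Subsingleton (c i).Vt := fun h => hi ((sub_iff _).mpr h)
      have h4 : (if Subsingleton (c i).Vt then 0 else rk true (c i)) ≤
          ∑ x, if Subsingleton (c x).Vt then 0 else rk true (c x) :=
        Finset.single_le_sum
          (f := fun x => if Subsingleton (c x).Vt then 0 else rk true (c x))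
          (fun _ _ => Nat.zero_le _) (Finset.mem_univ i)
      rw [if_neg hi'] at h4
      have h5 := hu.pos i
      change 1 ≤ rk true (c i) at h5
      omega
    · rw [rk_falseB h2] at hrk
      obtain ⟨W, hW, hWc⟩ := hu.ddexB (one_leaf h2)
      exact ⟨W, hW, hWc.trans hrk⟩
  · intro hst W hW
    have h3 : ∀ i, (c i).isLeaf = true := by
      simpa [isStar] using hst
    have h4 := UH.card_leA (V := fun i => (c i).Vt) (l1 := 0) (l2 := 1)
      ((sub_iff _).mp (h3 0)) ((sub_iff _).mp (h3 1)) (by simp) hu hW
    have h5 : (∑ i, if Subsingleton (c i).Vt then 0 else rk true (c i)) = 0 := by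
      apply Finset.sum_eq_zero
      intro i _
      rw [if_pos ((sub_iff _).mp (h3 i))]
    rw [h5] at h4
    exact h4
  · intro _ x
    exact qq_single x

end node

theorem all (t : Cotree) : All t := by
  induction t with
  | leaf => exact all_leaf
  | node k c ih => exact all_node ih

/-- the zero forcing number of a connected cograph with at least two vertices -/
theorem ff_rank (t : Cotree) (ht : t.isLeaf = false) :
    (∀ W, FF (graph true t) W → W.card ≤ rk true t) ∧
      ∃ W, FF (graph true t) W ∧ W.card = rk true t := by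
  have h := all t
  refine ⟨fun W hW => h.A.dd_le _ hW.dd, ?_⟩
  obtain ⟨W, hW, hc⟩ := h.A.dd_ex
  exact ⟨W, h.C ht _ hW, hc⟩

theorem main_connected (t : Cotree) (ht : t.isLeaf = false) :
    WellForced (graph true t) ↔ good .wf t := by
  have h := all t
  obtain ⟨h1, h2⟩ := ff_rank t ht
  rw [wellForced_iff h1 h2, ← h.D]
  constructor
  · intro hh W hW
    obtain ⟨W', h3, h4, h5⟩ := hh W (h.C ht _ hW)
    exact ⟨W', h3, h4.dd, h5⟩
  · intro hh W hW
    obtain ⟨W', h3, h4, h5⟩ := hh W hW.dd
    exact ⟨W', h3, h.C ht _ h4, h5⟩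

end Cotree

end ZF36
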