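import Mathlib
import Pool.Agent.Helper36.ZF.Main

/-! # Disconnected cographs, zero forcing numbers, isomorphisms -/

namespace ZF36

open Classical

set_option linter.unusedSectionVars false
set_option linter.style.haveILetI false

/-- largest size of a set without forts -/
structure Rk {V : Type} (G : SimpleGraph V) (f : ℕ) : Prop where
  le : ∀ W, FF G W → W.card ≤ f
  ex : ∃ W, FF G W ∧ W.card = f

section disc
variable {ι : Type} [Fintype ι] {V : ι → Type} [∀ i, Fintype (V i)]
  {H : ∀ i, SimpleGraph (V i)} {r : ι → ℕ}

theorem ff_union_iff {W : Finset (Σ i, V i)} :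
    FF (SG false H) W ↔ ∀ i, FF (H i) (sl W i) := by
  constructor
  · intro h i F hF hf
    exact h _ (emb_subset hF) (fort_emb_false hf)
  · intro h F hF hf
    obtain ⟨⟨i, a⟩, ha⟩ := hf.1
    exact h i _ (sl_mono hF i) (fort_sl_false ⟨a, mem_sl.mpr ha⟩ hf)

theorem rk_union (h : ∀ i, Rk (H i) (r i)) : Rk (SG false H) (∑ i, r i) := by
  constructor
  · intro W hW
    rw [ff_union_iff] at hW
    rw [card_eq_sum]
    exact Finset.sum_le_sum (fun i _ => (h i).le _ (hW i))
  · choose M hM hMc using fun i => (h i).ex
    refine ⟨gl M, ?_, ?_⟩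
    · rw [ff_union_iff]
      intro i
      rw [sl_gl]
      exact hM i
    · rw [card_gl]
      exact Finset.sum_congr rfl (fun i _ => hMc i)

theorem wellForced_union (h : ∀ i, Rk (H i) (r i)) :
    WellForced (SG false H) ↔ ∀ i, WellForced (H i) := by
  rw [wellForced_iff (rk_union h).le (rk_union h).ex]
  constructor
  · intro hU i
    rw [wellForced_iff (h i).le (h i).ex]
    intro W hW
    choose M hM hMc using fun i => (h i).ex
    have h1 : FF (SG false H) (gl (Function.update M i W)) := by
      rw [ff_union_iff]
      intro j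
      rw [sl_gl]
      by_cases hj : j = i
      · subst hj
        rw [Function.update_self]
        exact hW
      · rw [Function.update_of_ne hj]
        exact hM j
    obtain ⟨W', h2, h3, h4⟩ := hU _ h1
    rw [ff_union_iff] at h3
    rw [card_eq_sum] at h4
    have h5 := (Finset.sum_eq_sum_iff_of_le
      (fun j _ => (h j).le _ (h3 j))).mp h4 i (Finset.mem_univ i)
    have h6 := sl_of_gl_subset h2 i
    rw [Function.update_self] at h6
    exact ⟨sl W' i, h6, h3 i, h5⟩
  · intro hw W hW
    rw [ff_union_iff] at hW
    have hw' := fun i => (wellForced_iff (h i).le (h i).ex).mp (hw i) _ (hW i)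
    choose M h1 h2 h3 using hw'
    refine ⟨gl M, subset_gl h1, ?_, ?_⟩
    · rw [ff_union_iff]
      intro i
      rw [sl_gl]
      exact h2 i
    · rw [card_gl]
      exact Finset.sum_congr rfl (fun i _ => h3 i)

end disc

section iso
variable {V V' : Type} {G : SimpleGraph V} {G' : SimpleGraph V'}

theorem blue_map (e : G ≃g G') {S : Finset V} {v : V} (h : Blue G S v) :
    Blue G' (S.map e.toEquiv.toEmbedding) (e v) := by
  induction h with
  | init h => exact Blue.init (Finset.mem_map_of_mem _ h)
  | @force u w hu huw hz ihu ihz =>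
    refine Blue.force ihu (e.map_rel_iff.mpr huw) ?_
    intro z hadj hne
    have hz' : e (e.symm z) = z := e.apply_symm_apply z
    rw [← hz']
    apply ihz
    · rw [← e.map_rel_iff, hz']
      exact hadj
    · intro h
      exact hne (by rw [← hz', h])

theorem isZF_map (e : G ≃g G') {S : Finset V} :
    IsZF G' (S.map e.toEquiv.toEmbedding) ↔ IsZF G S := by
  have key : ∀ {W W' : Type} {K : SimpleGraph W} {K' : SimpleGraph W'} (f : K ≃g K')
      (T : Finset W), IsZF K T → IsZF K' (T.map f.toEquiv.toEmbedding) := by
    intro W W' K K' f T h v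
    have h1 := blue_map f (h (f.symm v))
    rw [f.apply_symm_apply] at h1
    exact h1
  constructor
  · intro h
    have h1 := key e.symm _ h
    have h2 : (S.map e.toEquiv.toEmbedding).map e.symm.toEquiv.toEmbedding = S := by
      rw [Finset.map_map]
      have h3 : e.toEquiv.toEmbedding.trans e.symm.toEquiv.toEmbedding =
          Function.Embedding.refl V := by
        ext x
        exact e.symm_apply_apply x
      rw [h3, Finset.map_refl]
    rw [h2] at h1
    exact h1
  · exact key e S

theorem wellForced_congr (e : G ≃g G') (h : WellForced G') : WellForced G := by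
  intro S hS
  refine ⟨hS.1, ?_⟩
  intro T hT
  have h1 : IsMinimalZF G' (S.map e.toEquiv.toEmbedding) := by
    refine ⟨(isZF_map e).mpr hS.1, ?_⟩
    intro T' hT' hZ
    have h2 : (T'.map e.symm.toEquiv.toEmbedding).map e.toEquiv.toEmbedding = T' := by
      rw [Finset.map_map]
      have h3 : e.symm.toEquiv.toEmbedding.trans e.toEquiv.toEmbedding =
          Function.Embedding.refl V' := by
        ext x
        exact e.apply_symm_apply x
      rw [h3, Finset.map_refl]
    rw [← h2] at hZ hT'
    exact hS.2 _ (Finset.map_ssubset_map.mp hT') ((isZF_map e).mp hZ)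
  have h2 := (h _ h1).2 _ ((isZF_map e).mpr hT)
  simpa using h2

theorem wellForced_iso (e : G ≃g G') : WellForced G ↔ WellForced G' :=
  ⟨wellForced_congr e.symm, wellForced_congr e⟩

end iso

namespace Cotree

/-- `|V| - Z` -/
def wr : Bool → Cotree → ℕ
  | _, leaf => 0
  | true, node k c => rk true (node k c)
  | false, node _ c => ∑ i, if (c i).isLeaf = true then 0 else rk true (c i)

theorem rk_leaf_zero (b : Bool) : Rk (graph b leaf) 0 := by
  haveI : Subsingleton (leaf).Vt := sub_leaf
  constructor
  · intro W hW
    rw [ff_leaf.mp hW]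
    rfl
  · exact ⟨∅, FF.empty, rfl⟩

theorem wf_leaf (b : Bool) : WellForced (graph b leaf) := by
  haveI : Subsingleton (leaf).Vt := sub_leaf
  rw [wellForced_iff (rk_leaf_zero b).le (rk_leaf_zero b).ex]
  intro W hW
  exact ⟨∅, by rw [ff_leaf.mp hW], FF.empty, rfl⟩

theorem rk_conn (t : Cotree) : Rk (graph true t) (if t.isLeaf = true then 0 else rk true t) := by
  cases t with
  | leaf =>
    rw [if_pos (show (leaf).isLeaf = true from rfl)]
    exact rk_leaf_zero true
  | node k c =>
    rw [if_neg (by simp [isLeaf])]
    obtain ⟨h1, h2⟩ := ff_rank (node k c) rfl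
    exact ⟨h1, h2⟩

theorem rk_all (b : Bool) (t : Cotree) : Rk (graph b t) (wr b t) := by
  cases t with
  | leaf => exact rk_leaf_zero b
  | node k c =>
    cases b with
    | true =>
      obtain ⟨h1, h2⟩ := ff_rank (node k c) rfl
      exact ⟨h1, h2⟩
    | false => exact rk_union (fun i => rk_conn (c i))

theorem wf_true (t : Cotree) : WellForced (graph true t) ↔ (t.isLeaf = false → good .wf t) := by
  cases t with
  | leaf =>
    constructor
    · intro _ h
      exact absurd h (by simp [isLeaf])
    · intro _
      exact wf_leaf true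
  | node k c =>
    rw [main_connected (node k c) rfl]
    exact ⟨fun h _ => h, fun h => h rfl⟩

theorem main (b : Bool) (t : Cotree) : WellForced (graph b t) ↔ crit b t := by
  cases t with
  | leaf => exact ⟨fun _ => trivial, fun _ => wf_leaf b⟩
  | node k c =>
    cases b with
    | true => exact main_connected (node k c) rfl
    | false =>
      refine (wellForced_union (fun i => rk_conn (c i))).trans ?_
      constructor
      · intro h i
        exact (wf_true (c i)).mp (h i)
      · intro h i
        exact (wf_true (c i)).mpr (h i)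

/-- the zero forcing number of a cograph is `|V| - wr b t` -/
theorem zf_number (b : Bool) (t : Cotree) :
    (∀ S, IsZF (graph b t) S → Fintype.card t.Vt ≤ S.card + wr b t) ∧
      ∃ S, IsZF (graph b t) S ∧ S.card + wr b t = Fintype.card t.Vt := by
  have h := rk_all b t
  constructor
  · intro S hS
    have h4 := h.le _ (isZF_iff.mp hS)
    rw [Finset.card_compl] at h4
    have h5 : S.card ≤ Fintype.card t.Vt := Finset.card_le_univ _
    omega
  · obtain ⟨W, hW, hc⟩ := h.ex
    refine ⟨Wᶜ, isZF_iff.mpr (by simpa using hW), ?_⟩
    rw [Finset.card_compl, ← hc]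
    have h5 : W.card ≤ Fintype.card t.Vt := Finset.card_le_univ _
    omega

end Cotree

end ZF36
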