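import Mathlib
import Pool.Agent.Helper36.ZF.Disc

/-! # Joins of arbitrary graphs -/

namespace ZF36

open Classical

set_option linter.unusedSectionVars false
set_option linter.style.haveILetI false

/-- one plus the largest size of a member of `QQ G` -/
noncomputable def dq {V : Type} [Fintype V] (G : SimpleGraph V) : ℕ :=
  (Finset.univ.filter (fun W : Finset V => QQ G W)).sup Finset.card + 1

theorem qq_empty {V : Type} [Nonempty V] (G : SimpleGraph V) : QQ G ∅ :=
  ⟨DD.of_card (by simp), Classical.arbitrary V, Finset.notMem_empty _,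
    fun b hb => absurd hb (Finset.notMem_empty b)⟩

/-- a member of `DD` with at least two elements loses a vertex to become a member of `QQ` -/
theorem dd_remove {V : Type} [Nonempty V] {G : SimpleGraph V} {W : Finset V} (h : DD G W) :
    ∃ W', W' ⊆ W ∧ QQ G W' ∧ W.card ≤ W'.card + 1 := by
  rcases Nat.lt_or_ge W.card 2 with hc | hc
  · exact ⟨∅, Finset.empty_subset _, qq_empty G, by simp only [Finset.card_empty]; omega⟩
  · have hnf : ¬ Fort G W := by
      intro hf
      have := h W (Finset.Subset.refl _) hf
      omega
    have hne : W.Nonempty := Finset.card_pos.mp (by omega)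
    have hex : ∃ u, u ∉ W ∧ ∃ w ∈ W, G.Adj u w ∧ ∀ w' ∈ W, w' ≠ w → ¬ G.Adj u w' := by
      by_contra hcon
      apply hnf
      refine ⟨hne, ?_⟩
      intro u hu w hw huw
      by_contra hno
      apply hcon
      refine ⟨u, hu, w, hw, huw, ?_⟩
      intro w' hw' hne' hadj
      exact hno ⟨w', hw', hne', hadj⟩
    obtain ⟨u, hu, w, hw, _, hw'⟩ := hex
    refine ⟨W.erase w, Finset.erase_subset _ _, ⟨h.mono (Finset.erase_subset _ _), u, ?_, ?_⟩, ?_⟩
    · exact fun hm => hu (Finset.mem_of_mem_erase hm)
    · intro b hb
      exact hw' b (Finset.mem_of_mem_erase hb) (Finset.ne_of_mem_erase hb)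
    · rw [Finset.card_erase_of_mem hw]
      omega

theorem prt_dq {V : Type} [Fintype V] [Nonempty V] (G : SimpleGraph V) : Prt G (dq G) := by
  have hq : ∀ W, QQ G W → W.card + 1 ≤ dq G := by
    intro W hW
    have : W.card ≤ (Finset.univ.filter (fun W : Finset V => QQ G W)).sup Finset.card :=
      Finset.le_sup (f := Finset.card) (by simpa using hW)
    unfold dq
    omega
  refine ⟨?_, hq, ?_⟩
  · intro W hW
    obtain ⟨W', _, h1, h2⟩ := dd_remove hW
    have := hq _ h1
    omega
  · obtain ⟨W, hW, hc⟩ := Finset.exists_mem_eq_sup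
      (Finset.univ.filter (fun W : Finset V => QQ G W)) ⟨∅, by simpa using qq_empty G⟩ Finset.card
    refine ⟨W, by simpa using hW, ?_⟩
    unfold dq
    rw [hc]

section join
variable {ι : Type} [Fintype ι] [Nontrivial ι] {V : ι → Type} [∀ i, Fintype (V i)]
  [∀ i, Nonempty (V i)] {H : ∀ i, SimpleGraph (V i)} {D : ι → ℕ}

theorem rk_join (hp : ∀ i, Prt (H i) (D i)) : Rk (SG true H) (Finset.univ.sup D) := by
  have h := cmp_join hp
  refine ⟨fun W hW => h.dd_le _ hW.dd, ?_⟩
  obtain ⟨W, hW, hc⟩ := h.dd_ex
  exact ⟨W, ff_iff_dd.mpr hW, hc⟩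

/-- `x` lies in a member of `QQ` of size `M - 1` -/
def Gd {V : Type} (G : SimpleGraph V) (M : ℕ) (x : V) : Prop :=
  ∃ W, x ∈ W ∧ QQ G W ∧ W.card + 1 = M

theorem join_iff (hp : ∀ i, Prt (H i) (D i))
    (h5 : ∀ i, ¬ Subsingleton (V i) → ∀ x, QQ (H i) {x}) :
    WellForced (SG true H) ↔
      (∀ i, HomQ2 (H i) (Finset.univ.sup D)) ∧
      (∀ i, ¬ Subsingleton (V i) → HomN (H i) (Finset.univ.sup D)) ∧
      (∀ i j, i ≠ j → (¬ Subsingleton (V i) ∨ ¬ Subsingleton (V j)) → ∀ x y,
        Gd (H i) (Finset.univ.sup D) x ∨ Gd (H j) (Finset.univ.sup D) y) := by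
  have hrk := rk_join hp
  rw [wellForced_iff hrk.le hrk.ex]
  have hemp : ∀ i, QQ (H i) ∅ := fun i => qq_empty (H i)
  constructor
  · intro hW
    refine ⟨?_, ?_, ?_⟩
    · intro i w hc hw
      obtain ⟨x, hx⟩ := exists_other (V := V) i
      obtain ⟨W', h1, h2, h3⟩ := hW _ (ff_insert hw hx)
      have hxW : x ∈ W' := h1 (Finset.mem_insert_self _ _)
      have hwW : ∀ b ∈ w, (⟨i, b⟩ : Σ i, V i) ∈ W' :=
        fun b hb => h1 (Finset.mem_insert_of_mem (mem_emb'.mpr hb))
      obtain ⟨a, ha, b, hb, hab⟩ := Finset.one_lt_card.mp (by omega : 1 < w.card)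
      rcases join_elim h2 with ⟨k, h4, h5'⟩ | ⟨k, x', hx', h4, h5'⟩
      · exfalso
        have e1 := h4 _ hxW
        have e2 := h4 _ (hwW a ha)
        exact hx (e1.trans e2.symm)
      · by_cases hk : i = k
        · subst hk
          have h6 := card_le_sl h4
          have h7 := (hp i).qq_le _ h5'
          have h8 := le_sup' D i
          exact ⟨sl W' i, fun c hc => mem_sl.mpr (hwW c hc), h5', by omega⟩
        · exfalso
          have e1 := h4 _ (hwW a ha) hk
          have e2 := h4 _ (hwW b hb) hk
          have e3 := e1.trans e2.symm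
          exact hab (by simpa using e3)
    · intro i hi w hw hnq
      obtain ⟨W', h1, h2, h3⟩ := hW _ (ff_emb hw)
      have hne : w.Nonempty := by
        rw [Finset.nonempty_iff_ne_empty]
        rintro rfl
        exact hnq (hemp i)
      obtain ⟨a, ha⟩ := hne
      have haW : (⟨i, a⟩ : Σ i, V i) ∈ W' := h1 (mem_emb'.mpr ha)
      have hsub : w ⊆ sl W' i := fun b hb => mem_sl.mpr (h1 (mem_emb'.mpr hb))
      rcases join_elim h2 with ⟨k, h4, h5'⟩ | ⟨k, x, hx, h4, h5'⟩
      · have hk : i = k := h4 _ haW
        subst hk
        refine ⟨sl W' i, hsub, h5', ?_⟩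
        rw [← card_sl h4, h3]
      · by_cases hk : i = k
        · subst hk
          exact absurd (h5'.mono hsub) hnq
        · exfalso
          apply hnq
          have : w = {a} := by
            ext b
            rw [Finset.mem_singleton]
            constructor
            · intro hb
              have e1 := h4 _ (h1 (mem_emb'.mpr hb)) hk
              have e2 := h4 _ haW hk
              have e3 := e1.trans e2.symm
              simpa using e3
            · rintro rfl
              exact ha
          rw [this]
          exact h5 i hi a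
    · have key : ∀ i j, i ≠ j → ¬ Subsingleton (V i) → ∀ x y,
          Gd (H i) (Finset.univ.sup D) x ∨ Gd (H j) (Finset.univ.sup D) y := by
        intro i j hij hi x y
        obtain ⟨W', h1, h2, h3⟩ := hW _ (ff_insert (x := ⟨j, y⟩) (h5 i hi x) (fun e => hij e.symm))
        have hy : (⟨j, y⟩ : Σ i, V i) ∈ W' := h1 (Finset.mem_insert_self _ _)
        have hx : (⟨i, x⟩ : Σ i, V i) ∈ W' :=
          h1 (Finset.mem_insert_of_mem (mem_emb'.mpr (Finset.mem_singleton_self _)))
        rcases join_elim h2 with ⟨k, h4, _⟩ | ⟨k, z, hz, h4, h5'⟩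
        · have e1 := h4 _ hy
          have e2 := h4 _ hx
          exact absurd (e2.trans e1.symm) hij
        · have h6 := card_le_sl h4
          have h7 := (hp k).qq_le _ h5'
          have h8 := le_sup' D k
          have h9 : (sl W' k).card + 1 = Finset.univ.sup D := by omega
          by_cases hki : i = k
          · subst hki
            exact Or.inl ⟨sl W' i, mem_sl.mpr hx, h5', h9⟩
          · by_cases hkj : j = k
            · subst hkj
              exact Or.inr ⟨sl W' j, mem_sl.mpr hy, h5', h9⟩
            · exfalso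
              have e1 := h4 _ hy hkj
              have e2 := h4 _ hx hki
              have e3 := congrArg Sigma.fst (e2.trans e1.symm)
              exact hij e3
      intro i j hij hor x y
      rcases hor with hi | hj
      · exact key i j hij hi x y
      · exact (key j i hij.symm hj y x).symm
  · rintro ⟨hA, hB, hC⟩
    obtain ⟨m, hm⟩ := exists_sup D
    obtain ⟨wm, hwm, hcm⟩ := (hp m).qq_ex
    have ext1 : ∀ (i : ι) (w w' : Finset (V i)) (x : Σ i, V i), x.1 ≠ i → w ⊆ w' →
        QQ (H i) w' → w'.card + 1 = Finset.univ.sup D →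
        ∃ W', insert x (emb i w) ⊆ W' ∧ FF (SG true H) W' ∧ W'.card = Finset.univ.sup D := by
      intro i w w' x hx hs hq hc
      refine ⟨insert x (emb i w'), Finset.insert_subset_insert _ (emb_mono hs),
        ff_insert hq hx, ?_⟩
      rw [card_insert_emb hx, hc]
    -- two vertices of different parts
    have pair : ∀ (i : ι) (a : V i) (x : Σ i, V i), x.1 ≠ i →
        (¬ Subsingleton (V i) ∨ ¬ Subsingleton (V x.1)) →
        ∃ W', {⟨i, a⟩, x} ⊆ W' ∧ FF (SG true H) W' ∧ W'.card = Finset.univ.sup D := by
      intro i a x hx hor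
      rcases hC i x.1 (fun e => hx e.symm) hor a x.2 with ⟨w', h1, h2, h3⟩ | ⟨w', h1, h2, h3⟩
      · obtain ⟨W', h4, h5', h6⟩ := ext1 i w' w' x hx (Finset.Subset.refl _) h2 h3
        refine ⟨W', ?_, h5', h6⟩
        intro z hz
        rw [Finset.mem_insert, Finset.mem_singleton] at hz
        rcases hz with rfl | rfl
        · exact h4 (Finset.mem_insert_of_mem (mem_emb'.mpr h1))
        · exact h4 (Finset.mem_insert_self _ _)
      · obtain ⟨W', h4, h5', h6⟩ := ext1 x.1 w' w' ⟨i, a⟩ (fun e => hx e.symm)
          (Finset.Subset.refl _) h2 h3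
        refine ⟨W', ?_, h5', h6⟩
        intro z hz
        rw [Finset.mem_insert, Finset.mem_singleton] at hz
        rcases hz with rfl | rfl
        · exact h4 (Finset.mem_insert_self _ _)
        · exact h4 (Finset.mem_insert_of_mem (mem_emb'.mpr h1))
    have single : ∀ x : Σ i, V i,
        ∃ W', {x} ⊆ W' ∧ FF (SG true H) W' ∧ W'.card = Finset.univ.sup D := by
      intro x
      by_cases hxm : x.1 = m
      · by_cases hs : Subsingleton (V m)
        · haveI := hs
          have h1 := (hp m).leaf_eq
          refine ⟨{x}, Finset.Subset.refl _, ?_, ?_⟩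
          · rw [ff_iff_dd]
            exact DD.of_card (by simp)
          · rw [Finset.card_singleton, hm, h1]
        · obtain ⟨y, hy⟩ := exists_other (V := V) m
          obtain ⟨W', h1, h2, h3⟩ := pair x.1 x.2 y (by rw [hxm]; exact hy)
            (Or.inl (by rw [hxm]; exact hs))
          refine ⟨W', ?_, h2, h3⟩
          intro z hz
          rw [Finset.mem_singleton] at hz
          subst hz
          exact h1 (Finset.mem_insert_self _ _)
      · obtain ⟨W', h1, h2, h3⟩ := ext1 m wm wm x hxm (Finset.Subset.refl _) hwm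
          (hcm.trans hm.symm)
        refine ⟨W', ?_, h2, h3⟩
        intro z hz
        rw [Finset.mem_singleton] at hz
        subst hz
        exact h1 (Finset.mem_insert_self _ _)
    have small : ∀ W : Finset (Σ i, V i), W.card ≤ 1 →
        ∃ W', W ⊆ W' ∧ FF (SG true H) W' ∧ W'.card = Finset.univ.sup D := by
      intro W hW
      obtain ⟨x0, _⟩ := exists_other (V := V) m
      have : ∃ x, W ⊆ {x} := by
        rcases Finset.eq_empty_or_nonempty W with h | ⟨x, hx⟩
        · exact ⟨x0, by rw [h]; exact Finset.empty_subset _⟩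
        · refine ⟨x, ?_⟩
          intro y hy
          rw [Finset.mem_singleton]
          exact Finset.card_le_one.mp hW y hy x hx
      obtain ⟨x, hx⟩ := this
      obtain ⟨W', h1, h2, h3⟩ := single x
      exact ⟨W', hx.trans h1, h2, h3⟩
    have key : ∀ (W : Finset (Σ i, V i)) (i : ι) (x : Σ i, V i), x.1 ≠ i →
        (∀ y ∈ W, y.1 ≠ i → y = x) → QQ (H i) (sl W i) →
        ∃ W', W ⊆ W' ∧ FF (SG true H) W' ∧ W'.card = Finset.univ.sup D := by
      intro W i x hx hy hQ
      have hWs : W ⊆ insert x (emb i (sl W i)) := by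
        rintro ⟨j, a⟩ hm
        by_cases hj : j = i
        · subst hj
          exact Finset.mem_insert_of_mem (mem_emb'.mpr (mem_sl.mpr hm))
        · rw [hy _ hm hj]
          exact Finset.mem_insert_self _ _
      rcases Nat.lt_or_ge (sl W i).card 2 with hc | hc
      · rcases Finset.eq_empty_or_nonempty (sl W i) with he | ⟨y, hyw⟩
        · apply small
          refine (card_le_sl hy).trans ?_
          rw [he]
          simp
        · have hone : sl W i = {y} := by
            ext z
            rw [Finset.mem_singleton]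
            constructor
            · intro hz
              exact Finset.card_le_one.mp (by omega) z hz y hyw
            · rintro rfl
              exact hyw
          have hnl : ¬ Subsingleton (V i) := by
            intro hs
            haveI := hs
            have := qq_leaf hQ
            rw [this] at hyw
            exact absurd hyw (Finset.notMem_empty y)
          obtain ⟨W', h1, h2, h3⟩ := pair i y x hx (Or.inl hnl)
          refine ⟨W', ?_, h2, h3⟩
          intro z hz
          apply h1
          rcases Finset.mem_insert.mp (hWs hz) with hz' | hz'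
          · rw [hz']
            simp
          · obtain ⟨a, ha, rfl⟩ := mem_emb.mp hz'
            rw [hone, Finset.mem_singleton] at ha
            rw [ha]
            simp
      · obtain ⟨w', h1, h2, h3⟩ := hA i _ hc hQ
        obtain ⟨W', h4, h5', h6⟩ := ext1 i _ w' x hx h1 h2 h3
        exact ⟨W', hWs.trans h4, h5', h6⟩
    intro W hW
    rcases join_elim hW with ⟨i, h1, h2⟩ | ⟨i, x, hx, h1, h2⟩
    · by_cases hQ : QQ (H i) (sl W i)
      · obtain ⟨x, hx⟩ := exists_other (V := V) i
        exact key W i x hx (fun y hy hne => absurd (h1 y hy) hne) hQ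
      · by_cases hs : Subsingleton (V i)
        · apply small
          rw [card_sl h1]
          haveI := hs
          exact Finset.card_le_one.mpr (fun a _ b _ => Subsingleton.elim a b)
        · obtain ⟨w', h3, h4, h5'⟩ := hB i hs _ h2 hQ
          refine ⟨emb i w', ?_, ff_emb h4, ?_⟩
          · rw [← emb_sl h1]
            exact emb_mono h3
          · rw [card_emb, h5']
    · exact key W i x hx h1 h2

end join

end ZF36
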