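import Mathlib
import Pool.Agent.Helper36.ZF.Disc

/-! # Every graph without induced path on four vertices has a cotree -/

namespace ZF36

open Classical

set_option linter.unusedSectionVars false
set_option linter.style.haveILetI false

theorem P4Free.compl {V : Type} {G : SimpleGraph V} (h : P4Free G) : P4Free Gᶜ := by
  intro a b c d hab hbc hcd
  by_contra hcon
  rw [not_or, not_or] at hcon
  obtain ⟨h1, h2, h3⟩ := hcon
  rw [SimpleGraph.compl_adj] at hab hbc hcd h1 h2 h3
  have hac : a ≠ c := by
    rintro rfl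
    exact h2 hcd
  have had : a ≠ d := by
    rintro rfl
    exact h3 ⟨hab.1.symm, fun h => hab.2 h.symm⟩
  have hbd : b ≠ d := by
    rintro rfl
    exact h2 hab
  have e1 : G.Adj a c := by
    by_contra h
    exact h1 ⟨hac, h⟩
  have e2 : G.Adj a d := by
    by_contra h
    exact h2 ⟨had, h⟩
  have e3 : G.Adj b d := by
    by_contra h
    exact h3 ⟨hbd, h⟩
  rcases h c a d b e1.symm e2 e3.symm with h | h | h
  · exact hcd.2 h
  · exact hbc.2 h.symm
  · exact hab.2 h

theorem P4Free.comap {V W : Type} {G : SimpleGraph V} (h : P4Free G) (f : W → V) :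
    P4Free (G.comap f) := by
  intro a b c d hab hbc hcd
  exact h _ _ _ _ hab hbc hcd

section step
variable {V : Type} {G : SimpleGraph V} {v : V}

/-- from every vertex one reaches a neighbour of `v` inside `G - v` -/
theorem reach_nb {x y : V} (w : G.Walk x y) (hy : y = v) (hx : x ≠ v) :
    ∃ z : {z // z ≠ v}, (G.comap (Subtype.val : {z // z ≠ v} → V)).Reachable ⟨x, hx⟩ z ∧
      G.Adj z.1 v := by
  induction w with
  | nil => exact absurd hy hx
  | @cons a b c hab w ih =>
    by_cases hb : b = v
    · subst hb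
      exact ⟨⟨a, hx⟩, SimpleGraph.Reachable.refl _, hab⟩
    · obtain ⟨z, h1, h2⟩ := ih hy hb
      refine ⟨z, SimpleGraph.Reachable.trans ?_ h1, h2⟩
      exact SimpleGraph.Adj.reachable (G := G.comap (Subtype.val : {z // z ≠ v} → V)) hab

/-- a walk from outside `P` into `P` crosses -/
theorem cross {W : Type} {K : SimpleGraph W} {P : W → Prop} {x y : W} (w : K.Walk x y)
    (hx : ¬ P x) (hy : P y) : ∃ a b, K.Reachable x a ∧ K.Adj a b ∧ ¬ P a ∧ P b := by
  induction w with
  | nil => exact absurd hy hx
  | @cons a b c hab w ih =>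
    by_cases hb : P b
    · exact ⟨a, b, SimpleGraph.Reachable.refl _, hab, hx, hb⟩
    · obtain ⟨a', b', h1, h2, h3, h4⟩ := ih hb hy
      exact ⟨a', b', hab.reachable.trans h1, h2, h3, h4⟩

theorem step_aux (hP : P4Free G) (hG : G.Preconnected) (hGc : Gᶜ.Preconnected)
    (hne : ∃ u, u ≠ v)
    (hd : ¬ (G.comap (Subtype.val : {z // z ≠ v} → V)).Preconnected) : False := by
  set K := G.comap (Subtype.val : {z // z ≠ v} → V) with hK
  -- a non-neighbour of `v`
  obtain ⟨u0, hu0⟩ := hne
  have hnn : ∃ u, u ≠ v ∧ ¬ G.Adj v u := by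
    obtain ⟨w⟩ := hGc v u0
    cases w with
    | nil => exact absurd rfl hu0
    | @cons _ b _ hab _ =>
      rw [SimpleGraph.compl_adj] at hab
      exact ⟨b, hab.1.symm, hab.2⟩
  obtain ⟨u, huv, hua⟩ := hnn
  obtain ⟨wu⟩ := hG u v
  obtain ⟨y1, hr1, ha1⟩ := reach_nb wu rfl huv
  obtain ⟨w1⟩ := hr1
  obtain ⟨y, x, hr, hyx, hy, hx⟩ := cross (P := fun z : {z // z ≠ v} => G.Adj z.1 v) w1
    (fun h => hua h.symm) ha1
  -- another component
  have hother : ∃ z0, ¬ K.Reachable ⟨u, huv⟩ z0 := by
    by_contra hno
    push Not at hno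
    exact hd (fun a b => (hno a).symm.trans (hno b))
  obtain ⟨z0, hz0⟩ := hother
  obtain ⟨wz⟩ := hG z0.1 v
  obtain ⟨z, hrz, haz⟩ := reach_nb wz rfl z0.2
  have hxr : K.Reachable ⟨u, huv⟩ x := hr.trans hyx.reachable
  have hnx : ¬ G.Adj x.1 z.1 := by
    intro h
    have h1 : K.Adj x z := h
    exact hz0 (hxr.trans (h1.reachable.trans hrz.symm))
  have hny : ¬ G.Adj y.1 z.1 := by
    intro h
    have h1 : K.Adj y z := h
    exact hz0 (hr.trans (h1.reachable.trans hrz.symm))
  rcases hP y.1 x.1 v z.1 hyx hx haz.symm with h | h | h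
  · exact hy h
  · exact hny h
  · exact hnx h

end step

theorem compl_comap {V W : Type} {G : SimpleGraph V} {f : W → V} (hf : Function.Injective f) :
    (G.comap f)ᶜ = Gᶜ.comap f := by
  ext a b
  simp only [SimpleGraph.compl_adj, SimpleGraph.comap_adj]
  constructor
  · rintro ⟨h1, h2⟩
    exact ⟨fun h => h1 (hf h), h2⟩
  · rintro ⟨h1, h2⟩
    exact ⟨fun h => h1 (by rw [h]), h2⟩

/-- Seinsche's theorem -/
theorem seinsche (n : ℕ) : ∀ (V : Type) [Fintype V] (G : SimpleGraph V), P4Free G →
    Fintype.card V = n → 2 ≤ n → ¬ (G.Preconnected ∧ Gᶜ.Preconnected) := by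
  induction n with
  | zero => intro V _ G _ _ h; omega
  | succ n ih =>
    intro V _ G hP hc hn
    rintro ⟨hG, hGc⟩
    have hcard : 1 < Fintype.card V := by omega
    obtain ⟨v, u, hvu⟩ := Fintype.one_lt_card_iff.mp hcard
    have hne : ∃ u, u ≠ v := ⟨u, hvu.symm⟩
    by_cases h1 : (G.comap (Subtype.val : {z // z ≠ v} → V)).Preconnected
    · by_cases h2 : (Gᶜ.comap (Subtype.val : {z // z ≠ v} → V)).Preconnected
      · have hcV : Fintype.card {z // z ≠ v} = n := by
          rw [Fintype.card_subtype_compl, Fintype.card_subtype_eq]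
          omega
        rcases Nat.lt_or_ge n 2 with hn2 | hn2
        · -- exactly two vertices
          have hn1 : n = 1 := by omega
          -- `v` and `u` are adjacent either in `G` or in the complement, not both
          have huniq : ∀ x : V, x ≠ v → x = u := by
            intro x hx
            by_contra hxu
            have h3 : 1 < Fintype.card {z // z ≠ v} :=
              Fintype.one_lt_card_iff.mpr ⟨⟨x, hx⟩, ⟨u, hvu.symm⟩, fun h => hxu (by simpa using h)⟩
            omega
          have hadj : ∀ K : SimpleGraph V, K.Preconnected → K.Adj v u := by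
            intro K hK
            obtain ⟨w⟩ := hK v u
            cases w with
            | nil => exact absurd rfl hvu
            | @cons _ b _ hab _ =>
              rw [← huniq b hab.ne.symm]
              exact hab
          have h3 := hadj G hG
          have h4 := hadj Gᶜ hGc
          rw [SimpleGraph.compl_adj] at h4
          exact h4.2 h3
        · refine ih {z // z ≠ v} (G.comap Subtype.val) (hP.comap _) hcV hn2 ⟨h1, ?_⟩
          rw [compl_comap Subtype.val_injective]
          exact h2
      · refine step_aux (v := v) hP.compl hGc ?_ hne h2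
        rw [compl_compl]
        exact hG
    · exact step_aux (v := v) hP hG hGc hne h1

end ZF36
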