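import Mathlib
import Pool.Agent.Helper36.ZF.P4

/-! # Cotrees of graphs without induced path on four vertices -/

namespace ZF36

open Classical

set_option linter.unusedSectionVars false
set_option linter.style.haveILetI false

/-- a partition all of whose cross pairs are adjacent (`b = true`) or non-adjacent
(`b = false`) -/
theorem iso_partition {V ι : Type} {G : SimpleGraph V} (p : V → ι) (b : Bool)
    (h : ∀ x y, p x ≠ p y → (G.Adj x y ↔ b = true)) :
    Nonempty (SG b (fun i => G.comap (Subtype.val : {x // p x = i} → V)) ≃g G) := by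
  refine ⟨⟨Equiv.sigmaFiberEquiv p, ?_⟩⟩
  rintro ⟨i, x, hx⟩ ⟨j, y, hy⟩
  change G.Adj x y ↔ _
  by_cases hij : i = j
  · subst hij
    rw [sg_same]
    exact Iff.rfl
  · rw [sg_diff (show (⟨i, ⟨x, hx⟩⟩ : Σ i, {x // p x = i}).1 ≠
      (⟨j, ⟨y, hy⟩⟩ : Σ i, {x // p x = i}).1 from hij)]
    apply h
    rw [hx, hy]
    exact hij

theorem iso_congr {ι κ : Type} {V : ι → Type} {V' : κ → Type} {H : ∀ i, SimpleGraph (V i)}
    {H' : ∀ i, SimpleGraph (V' i)} (b : Bool) (e : κ ≃ ι) (f : ∀ i, H' i ≃g H (e i)) :
    Nonempty (SG b H' ≃g SG b H) := by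
  refine ⟨⟨Equiv.sigmaCongr e (fun i => (f i).toEquiv), ?_⟩⟩
  rintro ⟨i, x⟩ ⟨j, y⟩
  change (SG b H).Adj ⟨e i, f i x⟩ ⟨e j, f j y⟩ ↔ _
  by_cases hij : i = j
  · subst hij
    rw [sg_same, sg_same]
    exact (f i).map_rel_iff
  · rw [sg_diff (show (⟨e i, f i x⟩ : Σ i, V i).1 ≠ (⟨e j, f j y⟩ : Σ i, V i).1 from
        fun h => hij (e.injective h)),
      sg_diff (show (⟨i, x⟩ : Σ i, V' i).1 ≠ (⟨j, y⟩ : Σ i, V' i).1 from hij)]

/-- `G` for `b = false`, the complement for `b = true` -/
def cg {V : Type} (b : Bool) (G : SimpleGraph V) : SimpleGraph V :=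
  match b with
  | true => Gᶜ
  | false => G

theorem cg_comap {V W : Type} {G : SimpleGraph V} {f : W → V} (hf : Function.Injective f)
    (b : Bool) : cg b (G.comap f) = (cg b G).comap f := by
  cases b with
  | true => exact compl_comap hf
  | false => rfl

theorem cg_not {V : Type} {G : SimpleGraph V} (b : Bool) (h1 : (cg b G).Preconnected)
    (h2 : (cg (!b) G).Preconnected) : G.Preconnected ∧ Gᶜ.Preconnected := by
  cases b with
  | true => exact ⟨h2, h1⟩
  | false => exact ⟨h1, h2⟩

theorem fiber_pre {V : Type} {K : SimpleGraph V} {i : K.ConnectedComponent} {x y : V}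
    (w : K.Walk x y) (hx : K.connectedComponentMk x = i) (hy : K.connectedComponentMk y = i) :
    (K.comap (Subtype.val : {x // K.connectedComponentMk x = i} → V)).Reachable
      ⟨x, hx⟩ ⟨y, hy⟩ := by
  induction w with
  | nil => exact SimpleGraph.Reachable.refl _
  | @cons a b c hab w ih =>
    have hb : K.connectedComponentMk b = i := by
      rw [← hx]
      exact (SimpleGraph.ConnectedComponent.sound hab.reachable).symm
    refine SimpleGraph.Reachable.trans ?_ (ih hb hy)
    exact SimpleGraph.Adj.reachable
      (G := K.comap (Subtype.val : {x // K.connectedComponentMk x = i} → V))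
      (u := ⟨a, hx⟩) (v := ⟨b, hb⟩) hab

theorem rep_aux (n : ℕ) : ∀ (V : Type) [Fintype V] (G : SimpleGraph V), P4Free G →
    Fintype.card V = n → 1 ≤ n → ∀ b, (n = 1 ∨ ¬ (cg b G).Preconnected) →
    ∃ t, Nonempty (Cotree.graph b t ≃g G) := by
  induction n using Nat.strong_induction_on with
  | _ n ih =>
    intro V _ G hP hc hn b hb
    by_cases hn1 : n = 1
    · have hu : Fintype.card V = 1 := hc.trans hn1
      obtain ⟨x, hx⟩ := Fintype.card_eq_one_iff.mp hu
      refine ⟨Cotree.leaf, ⟨⟨⟨fun _ => x, fun _ => (), ?_, ?_⟩, ?_⟩⟩⟩
      · intro _; rfl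
      · intro y; exact (hx y).symm
      · intro a a'
        constructor
        · intro h
          exact absurd h (G.loopless.irrefl x)
        · intro h
          exact absurd h (by
            intro h
            exact (SimpleGraph.bot_adj _ _).mp h)
    · have hb' : ¬ (cg b G).Preconnected := by
        rcases hb with h | h
        · exact absurd h hn1
        · exact h
      set K := cg b G with hK
      set p : V → K.ConnectedComponent := K.connectedComponentMk with hp
      -- two components
      have h2 : ∃ x y, p x ≠ p y := by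
        by_contra hcon
        push Not at hcon
        exact hb' (fun x y => SimpleGraph.ConnectedComponent.exact (hcon x y))
      have hcross : ∀ x y, p x ≠ p y → (G.Adj x y ↔ b = true) := by
        intro x y hxy
        have hna : ¬ K.Adj x y := by
          intro h
          exact hxy (SimpleGraph.ConnectedComponent.sound h.reachable)
        have hne : x ≠ y := by
          rintro rfl
          exact hxy rfl
        cases b with
        | true =>
          constructor
          · intro _; rfl
          · intro _
            by_contra h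
            apply hna
            change Gᶜ.Adj x y
            rw [SimpleGraph.compl_adj]
            exact ⟨hne, h⟩
        | false =>
          constructor
          · intro h
            exact absurd h hna
          · intro h
            exact absurd h (by simp)
      have hfib : ∀ i, ∃ t, Nonempty (Cotree.graph (!b) t ≃g
          G.comap (Subtype.val : {x // p x = i} → V)) := by
        intro i
        obtain ⟨x, hx⟩ : ∃ x, p x = i := i.exists_rep
        have hlt : Fintype.card {x // p x = i} < n := by
          rw [← hc]
          obtain ⟨y, z, hyz⟩ := h2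
          by_cases hy : p y = i
          · exact Fintype.card_subtype_lt (x := z) (fun h => hyz (hy.trans h.symm))
          · exact Fintype.card_subtype_lt (x := y) hy
        have hpos : 1 ≤ Fintype.card {x // p x = i} :=
          Fintype.card_pos_iff.mpr ⟨⟨x, hx⟩⟩
        refine ih _ hlt _ _ (hP.comap _) rfl hpos (!b) ?_
        by_cases h1 : Fintype.card {x // p x = i} = 1
        · exact Or.inl h1
        · right
          intro hpre
          refine seinsche _ _ (G.comap (Subtype.val : {x // p x = i} → V)) (hP.comap _) rfl
            (by omega) (cg_not b ?_ hpre)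
          rw [cg_comap Subtype.val_injective]
          rintro ⟨a, ha⟩ ⟨a', ha'⟩
          have hr : K.Reachable a a' := SimpleGraph.ConnectedComponent.exact (ha.trans ha'.symm)
          obtain ⟨w⟩ := hr
          exact fiber_pre w ha ha'
      choose t ht using hfib
      obtain ⟨y, z, hyz⟩ := h2
      have hcard : 1 < Fintype.card K.ConnectedComponent :=
        Fintype.one_lt_card_iff.mpr ⟨p y, p z, hyz⟩
      obtain ⟨k, hk⟩ : ∃ k, Fintype.card K.ConnectedComponent = k + 2 :=
        ⟨Fintype.card K.ConnectedComponent - 2, by omega⟩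
      let e : Fin (k + 2) ≃ K.ConnectedComponent := (Fintype.equivFinOfCardEq hk).symm
      refine ⟨Cotree.node k (fun i => t (e i)), ?_⟩
      obtain ⟨f1⟩ := iso_partition p b hcross
      obtain ⟨f2⟩ := iso_congr (H := fun i => G.comap (Subtype.val : {x // p x = i} → V))
        (H' := fun i => Cotree.graph (!b) (t (e i))) b e (fun i => (ht (e i)).some)
      exact ⟨f2.trans f1⟩

/-- every finite graph without induced `P₄` has a cotree -/
theorem rep {V : Type} [Fintype V] [Nonempty V] (G : SimpleGraph V) (hP : P4Free G) :
    ∃ b t, Nonempty (Cotree.graph b t ≃g G) := by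
  have hpos : 1 ≤ Fintype.card V := Fintype.card_pos
  by_cases h1 : Fintype.card V = 1
  · obtain ⟨t, ht⟩ := rep_aux _ V G hP rfl hpos true (Or.inl h1)
    exact ⟨true, t, ht⟩
  · have h2 := seinsche _ V G hP rfl (by omega)
    by_cases h3 : G.Preconnected
    · have h4 : ¬ (cg true G).Preconnected := fun h => h2 ⟨h3, h⟩
      obtain ⟨t, ht⟩ := rep_aux _ V G hP rfl hpos true (Or.inr h4)
      exact ⟨true, t, ht⟩
    · have h4 : ¬ (cg false G).Preconnected := h3
      obtain ⟨t, ht⟩ := rep_aux _ V G hP rfl hpos false (Or.inr h4)
      exact ⟨false, t, ht⟩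

end ZF36
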