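import Mathlib
import Pool.Agent.Helper36.ZF.Rep
import Pool.Agent.Helper36.ZF.JoinGen

/-! # Graphs whose complement is disconnected -/

namespace ZF36

open Classical

set_option linter.unusedSectionVars false
set_option linter.style.haveILetI false

/-- the subgraph of `G` induced by the connected component `C` of the complement -/
def co {V : Type} (G : SimpleGraph V) (C : Gᶜ.ConnectedComponent) :
    SimpleGraph {x // Gᶜ.connectedComponentMk x = C} := G.comap Subtype.val

/-- `C` consists of a single vertex -/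
def One {V : Type} (G : SimpleGraph V) (C : Gᶜ.ConnectedComponent) : Prop :=
  Subsingleton {x // Gᶜ.connectedComponentMk x = C}

theorem exists_nb {V : Type} {K : SimpleGraph V} {a b : V} (w : K.Walk a b) (h : a ≠ b) :
    ∃ z, K.Adj a z := by
  cases w with
  | nil => exact absurd rfl h
  | @cons _ z _ hab _ => exact ⟨z, hab⟩

theorem qq_co {V : Type} (G : SimpleGraph V) (C : Gᶜ.ConnectedComponent) (h : ¬ One G C)
    (x : {x // Gᶜ.connectedComponentMk x = C}) : QQ (co G C) {x} := by
  have h' : ∃ y : {x // Gᶜ.connectedComponentMk x = C}, y ≠ x := by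
    by_contra hcon
    push Not at hcon
    exact h ⟨fun a b => (hcon a).trans (hcon b).symm⟩
  obtain ⟨y, hy⟩ := h'
  have hr : Gᶜ.Reachable x.1 y.1 := SimpleGraph.ConnectedComponent.exact (x.2.trans y.2.symm)
  obtain ⟨w⟩ := hr
  obtain ⟨z, hz⟩ := exists_nb w (fun e => hy (Subtype.ext e.symm))
  have hzC : Gᶜ.connectedComponentMk z = C := by
    rw [← x.2]
    exact (SimpleGraph.ConnectedComponent.sound hz.reachable).symm
  rw [SimpleGraph.compl_adj] at hz
  refine ⟨DD.of_card (by simp), ⟨z, hzC⟩, ?_, ?_⟩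
  · rw [Finset.mem_singleton]
    intro e
    exact hz.1 (congrArg Subtype.val e).symm
  · intro b hb hadj
    rw [Finset.mem_singleton] at hb
    subst hb
    exact hz.2 (SimpleGraph.Adj.symm hadj)

theorem cocomp_iff {V : Type} [Fintype V] (G : SimpleGraph V) (hG : ¬ Gᶜ.Preconnected)
    (D : Gᶜ.ConnectedComponent → ℕ)
    (hD : ∀ C, IsGreatest {n | ∃ W, QQ (co G C) W ∧ W.card + 1 = n} (D C)) (M : ℕ)
    (hM : IsGreatest (Set.range D) M) :
    (∀ S, IsMinimumZF G S → S.card + M = Fintype.card V) ∧
    (WellForced G ↔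
      (∀ C, HomQ2 (co G C) M) ∧ (∀ C, ¬ One G C → HomN (co G C) M) ∧
      ∀ C C', C ≠ C' → (¬ One G C ∨ ¬ One G C') → ∀ x y,
        Gd (co G C) M x ∨ Gd (co G C') M y) := by
  haveI : Fintype Gᶜ.ConnectedComponent := Fintype.ofFinite _
  haveI : Nontrivial Gᶜ.ConnectedComponent := by
    by_contra hcon
    rw [not_nontrivial_iff_subsingleton] at hcon
    exact hG (fun x y => SimpleGraph.ConnectedComponent.exact (Subsingleton.elim _ _))
  haveI : ∀ C, Nonempty {x // Gᶜ.connectedComponentMk x = C} := by
    intro C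
    obtain ⟨x, hx⟩ := C.exists_rep
    exact ⟨⟨x, hx⟩⟩
  have hcross : ∀ x y, Gᶜ.connectedComponentMk x ≠ Gᶜ.connectedComponentMk y →
      (G.Adj x y ↔ true = true) := by
    intro x y hxy
    constructor
    · intro _; rfl
    · intro _
      by_contra h
      apply hxy
      apply SimpleGraph.ConnectedComponent.sound
      apply SimpleGraph.Adj.reachable
      rw [SimpleGraph.compl_adj]
      refine ⟨?_, h⟩
      rintro rfl
      exact hxy rfl
  obtain ⟨e⟩ := iso_partition Gᶜ.connectedComponentMk true hcross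
  have hprt : ∀ C, Prt (co G C) (D C) := by
    intro C
    obtain ⟨⟨W, hW, hc⟩, hub⟩ := hD C
    have hq : ∀ W, QQ (co G C) W → W.card + 1 ≤ D C := fun W hW => hub ⟨W, hW, rfl⟩
    refine ⟨?_, hq, W, hW, hc⟩
    intro W hW
    obtain ⟨W', _, h1, h2⟩ := dd_remove hW
    have := hq _ h1
    omega
  have hsup : Finset.univ.sup D = M := by
    obtain ⟨⟨C, hC⟩, hub⟩ := hM
    apply le_antisymm
    · exact Finset.sup_le (fun C _ => hub ⟨C, rfl⟩)
    · rw [← hC]
      exact Finset.le_sup (f := D) (Finset.mem_univ C)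
  have hrk := rk_join hprt
  rw [hsup] at hrk
  constructor
  · intro S hS
    have h1 := (isZF_map e.symm).mpr hS.1
    have h2 : IsMinimumZF (SG true fun i => co G i) (S.map e.symm.toEquiv.toEmbedding) := by
      refine ⟨h1, ?_⟩
      intro T hT
      have h3 := hS.2 _ ((isZF_map e).mpr hT)
      rw [Finset.card_map] at h3
      rw [Finset.card_map]
      exact h3
    have h3 := (minimum_iff hrk.le hrk.ex _ h1).mp h2
    rw [Finset.card_map] at h3
    rw [h3]
    exact Fintype.card_congr e.toEquiv
  · rw [← wellForced_iso e]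
    have h := join_iff (H := fun C => co G C) hprt (fun C hC x => qq_co G C hC x)
    rw [hsup] at h
    exact h

end ZF36
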