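import Mathlib
import Pool.Agent.Helper36.ZF.Rep

/-! # Trivially perfect graphs -/

namespace ZF36

open Classical

set_option linter.unusedSectionVars false
set_option linter.style.haveILetI false

/-- no induced cycle on four vertices -/
def C4Free {V : Type} (G : SimpleGraph V) : Prop :=
  ∀ a b c d, G.Adj a b → G.Adj b c → G.Adj c d → G.Adj d a → a ≠ c → b ≠ d →
    G.Adj a c ∨ G.Adj b d

theorem P4Free.iso {V V' : Type} {G : SimpleGraph V} {G' : SimpleGraph V'} (e : G ≃g G')
    (h : P4Free G) : P4Free G' := by
  intro a b c d hab hbc hcd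
  have h1 := h (e.symm a) (e.symm b) (e.symm c) (e.symm d)
    (e.symm.map_rel_iff.mpr hab) (e.symm.map_rel_iff.mpr hbc) (e.symm.map_rel_iff.mpr hcd)
  rcases h1 with h1 | h1 | h1
  · exact Or.inl (e.symm.map_rel_iff.mp h1)
  · exact Or.inr (Or.inl (e.symm.map_rel_iff.mp h1))
  · exact Or.inr (Or.inr (e.symm.map_rel_iff.mp h1))

theorem C4Free.iso {V V' : Type} {G : SimpleGraph V} {G' : SimpleGraph V'} (e : G ≃g G')
    (h : C4Free G) : C4Free G' := by
  intro a b c d hab hbc hcd hda hac hbd
  have h1 := h (e.symm a) (e.symm b) (e.symm c) (e.symm d)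
    (e.symm.map_rel_iff.mpr hab) (e.symm.map_rel_iff.mpr hbc) (e.symm.map_rel_iff.mpr hcd)
    (e.symm.map_rel_iff.mpr hda) (fun h => hac (e.symm.injective h))
    (fun h => hbd (e.symm.injective h))
  rcases h1 with h1 | h1
  · exact Or.inl (e.symm.map_rel_iff.mp h1)
  · exact Or.inr (e.symm.map_rel_iff.mp h1)

section sg
variable {ι : Type} {V : ι → Type} {H : ∀ i, SimpleGraph (V i)}

theorem C4Free.part {b : Bool} (h : C4Free (SG b H)) (i : ι) : C4Free (H i) := by
  intro a b' c d hab hbc hcd hda hac hbd
  have h1 := h ⟨i, a⟩ ⟨i, b'⟩ ⟨i, c⟩ ⟨i, d⟩ (sg_same.mpr hab) (sg_same.mpr hbc)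
    (sg_same.mpr hcd) (sg_same.mpr hda) (by simpa using hac) (by simpa using hbd)
  rcases h1 with h1 | h1
  · exact Or.inl (sg_same.mp h1)
  · exact Or.inr (sg_same.mp h1)

theorem P4Free.sg {b : Bool} (h : ∀ i, P4Free (H i)) : P4Free (SG b H) := by
  have hsame : ∀ {x y z w : Σ i, V i}, x.1 = y.1 → y.1 = z.1 → z.1 = w.1 →
      (SG b H).Adj x y → (SG b H).Adj y z → (SG b H).Adj z w →
      (SG b H).Adj x z ∨ (SG b H).Adj x w ∨ (SG b H).Adj y w := by
    rintro ⟨i, x⟩ ⟨j, y⟩ ⟨k, z⟩ ⟨l, w⟩ h1 h2 h3 h4 h5 h6
    change i = j at h1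
    change j = k at h2
    change k = l at h3
    subst h1 h2 h3
    rcases h i x y z w (sg_same.mp h4) (sg_same.mp h5) (sg_same.mp h6) with h7 | h7 | h7
    · exact Or.inl (sg_same.mpr h7)
    · exact Or.inr (Or.inl (sg_same.mpr h7))
    · exact Or.inr (Or.inr (sg_same.mpr h7))
  intro x y z w hxy hyz hzw
  cases b with
  | false => exact hsame (adj_false hxy) (adj_false hyz) (adj_false hzw) hxy hyz hzw
  | true =>
    by_cases h1 : x.1 = z.1
    · by_cases h2 : x.1 = w.1
      · by_cases h3 : y.1 = w.1
        · exact hsame (h2.trans h3.symm) (h3.trans (h2.symm.trans h1)) (h1.symm.trans h2)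
            hxy hyz hzw
        · exact Or.inr (Or.inr (adj_true h3))
      · exact Or.inr (Or.inl (adj_true h2))
    · exact Or.inl (adj_true h1)

end sg

namespace Cotree

theorem p4free (b : Bool) (t : Cotree) : P4Free (graph b t) := by
  induction t generalizing b with
  | leaf =>
    intro a b' c d h
    exact absurd h (by
      intro h
      exact (SimpleGraph.bot_adj _ _).mp h)
  | node k c ih => exact P4Free.sg (fun i => ih i (!b))

theorem nonadj (t : Cotree) (ht : t.isLeaf = false) :
    ∃ x y, x ≠ y ∧ ¬ (graph false t).Adj x y := by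
  cases t with
  | leaf => exact absurd ht (by simp [isLeaf])
  | node k c =>
    refine ⟨⟨0, (instNE (c 0)).some⟩, ⟨1, (instNE (c 1)).some⟩, ?_, ?_⟩
    · intro h
      have h2 := congrArg Sigma.fst h
      exact absurd h2 (by simp)
    · intro h
      have h2 := adj_false h
      exact absurd h2 (by simp)

theorem two_le_rk (t : Cotree) (ht : t.isLeaf = false) : 2 ≤ rk false t := by
  have h := (all t).B.qq_le _ ((all t).J ht (instNE t).some)
  rwa [Finset.card_singleton] at h

theorem c4_good (t : Cotree) : (C4Free (graph true t) → good .q t) ∧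
    (C4Free (graph false t) → good .ok t) := by
  induction t with
  | leaf => exact ⟨fun _ => trivial, fun _ => trivial⟩
  | node k c ih =>
    constructor
    · intro h
      have hpart : ∀ i, C4Free (graph false (c i)) := fun i => C4Free.part (b := true) h i
      refine ⟨fun i => (ih i).2 (hpart i), ?_⟩
      intro i hi
      by_contra hnl
      have hnl' : (c i).isLeaf = false := by simpa using hnl
      obtain ⟨m, hm⟩ := exists_sup (fun i => rk false (c i))
      have hi' : rk false (c i) < rk false (c m) := by
        rw [rk_true, hm] at hi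
        exact hi
      have h2 := two_le_rk (c i) hnl'
      have hml : (c m).isLeaf = false := by
        cases hcm : c m with
        | leaf =>
          rw [hcm, rk_leaf] at hi'
          omega
        | node k' c' => rfl
      have him : i ≠ m := by
        rintro rfl
        omega
      obtain ⟨x, x', hx, hxn⟩ := nonadj (c i) hnl'
      obtain ⟨y, y', hy, hyn⟩ := nonadj (c m) hml
      have h3 := h ⟨i, x⟩ ⟨m, y⟩ ⟨i, x'⟩ ⟨m, y'⟩ (adj_true him) (adj_true him.symm)
        (adj_true him) (adj_true him.symm) (by
          intro e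
          exact hx (sigma_mk_injective (β := fun i => (c i).Vt) e)) (by
          intro e
          exact hy (sigma_mk_injective (β := fun i => (c i).Vt) e))
      rcases h3 with h3 | h3
      · exact hxn ((sg_same (b := true) (H := fun i => graph false (c i))).mp h3)
      · exact hyn ((sg_same (b := true) (H := fun i => graph false (c i))).mp h3)
    · intro h i _
      have h1 := (ih i).1 (C4Free.part (b := false) h i)
      by_cases h2 : 2 ≤ nl c
      · rw [if_pos h2]
        exact good_q_wf h1
      · rw [if_neg h2]
        exact h1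

end Cotree

/-- every graph without induced `P₄` and without induced `C₄` is well-forced -/
theorem trivially_perfect {V : Type} [Fintype V] [Nonempty V] (G : SimpleGraph V)
    (hP : P4Free G) (hC : C4Free G) : WellForced G := by
  obtain ⟨b, t, ⟨e⟩⟩ := rep G hP
  rw [← wellForced_iso e, Cotree.main]
  have hC' : C4Free (Cotree.graph b t) := hC.iso e.symm
  cases t with
  | leaf => trivial
  | node k c =>
    cases b with
    | true => exact Cotree.good_q_wf ((Cotree.c4_good _).1 hC')
    | false =>
      intro i _
      exact Cotree.good_q_wf ((Cotree.c4_good (c i)).1 (C4Free.part (b := false) hC' i))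

end ZF36
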